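import Pool.Agent.Helper7.EC_E.Fin
import Pool.Agent.Helper11.EC_E.MI
import Pool.Agent.Helper14.EC_E.MSUM
import Pool.Agent.Helper18.EC_E.FE
import Pool.Agent.Helper22.EC_E.CC
import Pool.Agent.Helper24.EC_E.MP
import Pool.Agent.Helper28.EC_E.MB
import Pool.Agent.Helper28.EC_E.MC
import Pool.Agent.Helper29.EC_E.K0C
import Pool.Agent.Helper3.EC_E.ME
import Pool.Agent.Helper3.EC_E.MK
import Pool.Agent.Helper36.EC_E.EE
import Pool.Agent.Helper39.EC_E.ERR
import Pool.Agent.Helper39.EC_E.FB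
import Pool.Agent.Helper4.EC_E.MS2
import Pool.Agent.Helper4.EC_E.MS3
import Pool.Agent.Helper40.EC_E.FY
import Pool.Agent.Helper40.EC_E.MD
import Pool.Agent.Helper45.EC_E.MY
import Pool.Agent.Helper45.EC_E.NX
import Pool.Agent.Helper49.EC_E.RS
import Pool.Agent.Helper5.EC_E.EY
import Pool.Agent.Helper54.EC_E.RBt
import Pool.Agent.Helper55.EC_E.JV
import Pool.Agent.Helper56.EC_E.KS
import Pool.Agent.Helper56.EC_E.RED
import Pool.Agent.Helper57.EC_E.RA
import Pool.Agent.Helper58.EC_E.CV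
import Pool.Agent.Helper58.EC_E.MA
import Pool.Agent.Helper62.EC_E.MTH
import Pool.Agent.Helper62.EC_E.NS
import Pool.Agent.Helper64.EC_E.MT
import Pool.Agent.Helper65.EC_E.RAt
import Pool.Agent.Helper67.EC_E.CE
import Pool.Agent.Helper78.EC_E.RB
import Pool.Agent.Helper87.EC_E.ASM
import Pool.Agent.Helper89.EC_E.R0
import Pool.Agent.Helper9.EC_E.MS1
import Pool.Agent.Helper9.EC_E.ST
import Pool.Agent.Helper93.EC_E.K0
import Pool.Agent.Helper96.EC_E.RY
import Pool.Agent.Helper87.EC_E.K0F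
import Pool.Agent.Helper94.EC_E.MBD
import Pool.Agent.Helper6.EC.D_A1
import Pool.Agent.Helper45.EC.D_B1
import Pool.Agent.Helper39.EC.D_B2
import Pool.Agent.Helper63.EC.D_B4

/-! Assembly of part E of MP_ecc237_nt: `EC237.PE` from all the packets. -/

set_option autoImplicit false

namespace EC237.ZE.All

open EC237.ZE

theorem a1 : EC237.A1 := Pool.Agent.Helper6.EC.D_A1.thm
theorem b1 : EC237.B1 := Pool.Agent.Helper45.EC.D_B1.thm
theorem b2 : EC237.B2 := Pool.Agent.Helper39.EC.D_B2.thm a1 b1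
theorem b4 : EC237.B4 := Pool.Agent.Helper63.EC.D_B4.thm

theorem rs : G_RS := PkRS.thm b2 b4
theorem r0 : G_R0 := PkR0.thm
theorem ry : G_RY := PkRY.thm rs a1
theorem red : G_RED := by
  have ra : G_RA := PkRA.thm a1 b1 b2 b4 r0 rs ry
  have rat : G_RAt := PkRAt.thm ra
  have rb : G_RB := PkRB.thm a1 b1 b2 b4 r0 rs ry
  have rbt : G_RBt := PkRBt.thm a1 b1 b2 b4 r0 rs ry
  exact PkRED.thm ra rat rb rbt

theorem cc : G_CC := PkCC.thm
theorem ce : G_CE := PkCE.thm
theorem cv : G_CV := PkCV.thm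
theorem nx : G_NX := PkNX.thm
theorem ns : G_NS := PkNS.thm rs cc nx
theorem err : G_ERR := PkERR.thm
theorem ey : G_EY := PkEY.thm ce cv ns err
theorem ee : G_EE := PkEE.thm ce cv ns err
theorem fy : G_FY := PkFY.thm
theorem fe : G_FE := PkFE.thm
theorem mbd : G_MBD := PkMBD.thm
theorem asm : G_ASM := PkASM.thm red ey ee fy fe mbd b4

theorem st : G_ST := PkST.thm
theorem fb : G_FB := PkFB.thm
theorem ks : G_KS := PkKS.thm st fb
theorem k0c : G_K0C := PkK0C.thm cc ce cv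
theorem k0f : G_K0F := PkK0F.thm
theorem k0 : G_K0 := PkK0.thm st k0f k0c
theorem jv : G_JV := PkJV.thm PkMP.thm

theorem msum : G_MSUM := PkMSUM.thm
theorem my : G_MY := PkMY.thm msum PkMA.thm
theorem mt : G_MT := PkMT.thm msum PkMB.thm PkMC.thm PkMD.thm PkME.thm PkMS1.thm PkMS2.thm
  PkMS3.thm my
theorem mk : G_MK := PkMK.thm mt
theorem mth : G_MTH := PkMTH.thm PkMI.thm mk

/-- (E.17): the behaviour of `Φ_B` at the cusp. -/
theorem pe : EC237.PE :=
  Fin.main asm ks k0 jv mth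

end EC237.ZE.All
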