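import Pool.Agent.Helper7.EC_E.GoalsS

/-!
# MP_ecc237_nt, PART E: final assembly of (PE)
-/

set_option autoImplicit false

open MeasureTheory Filter Topology Set

namespace EC237.ZE.Fin

lemma summ_sq (C : ℝ) : Summable (fun k : ℤ => if k = 0 then (0:ℝ) else C / (k:ℝ) ^ 2) := by
  have h : Summable (fun k : ℤ => C * (1 / (k:ℝ) ^ 2)) :=
    (Real.summable_one_div_int_pow.2 (by norm_num)).mul_left C
  refine h.congr fun k => ?_
  by_cases hk : k = 0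
  · simp [hk]
  · simp only [hk, if_false]
    ring

/-- `Σ_{k≠0} |k|^{-5} = 2ζ(5)`. -/
lemma sum5 : HasSum (fun k : ℤ => if k = 0 then (0:ℝ) else 1 / |(k:ℝ)| ^ 5) (2 * zeta5) := by
  have hz : HasSum (fun n : ℕ => 1 / ((n:ℝ) + 1) ^ 5) zeta5 := by
    have h1 : Summable (fun n : ℕ => 1 / ((n:ℝ) + 1) ^ 5) := by
      have := (summable_nat_add_iff 1).2 (Real.summable_one_div_nat_pow (p := 5) |>.2 (by norm_num))
      refine this.congr fun n => ?_
      push_cast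
      rfl
    exact h1.hasSum
  have hn : ∀ n : ℕ, (if (-((n:ℤ) + 1)) = 0 then (0:ℝ) else 1 / |((-((n:ℤ) + 1) : ℤ):ℝ)| ^ 5) =
      1 / ((n:ℝ) + 1) ^ 5 := by
    intro n
    rw [if_neg (by omega)]
    push_cast
    rw [abs_neg, abs_of_pos (by positivity)]
  have hn' : ∀ n : ℕ, (if (((n + 1 : ℕ)):ℤ) = 0 then (0:ℝ) else 1 / |((((n + 1 : ℕ)):ℤ):ℝ)| ^ 5) =
      1 / ((n:ℝ) + 1) ^ 5 := by
    intro n
    rw [if_neg (by omega)]
    push_cast
    rw [abs_of_pos (by positivity)]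
  have h2 : HasSum (fun n : ℕ => if ((n:ℤ)) = 0 then (0:ℝ) else 1 / |((n:ℤ):ℝ)| ^ 5) zeta5 := by
    have h3 : HasSum (fun n : ℕ => if (((n + 1 : ℕ)):ℤ) = 0 then (0:ℝ) else
        1 / |((((n + 1 : ℕ)):ℤ):ℝ)| ^ 5) zeta5 := by
      rw [funext hn']
      exact hz
    have h4 := (hasSum_nat_add_iff (f := fun n : ℕ => if ((n:ℤ)) = 0 then (0:ℝ) else
      1 / |((n:ℤ):ℝ)| ^ 5) 1).1 h3
    simpa using h4
  have h5 : HasSum (fun n : ℕ => if (-((n:ℤ) + 1)) = 0 then (0:ℝ) else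
      1 / |((-((n:ℤ) + 1) : ℤ):ℝ)| ^ 5) zeta5 := by
    rw [funext hn]
    exact hz
  have := HasSum.of_nat_of_neg_add_one (f := fun k : ℤ => if k = 0 then (0:ℝ) else
    1 / |(k:ℝ)| ^ 5) h2 h5
  rwa [← two_mul] at this

/-- splitting off the term at `0` -/
lemma split {f : ℤ → ℂ} (hf : Summable f) :
    ∑' k, f k = f 0 + ∑' k, (if k = 0 then 0 else f k) := hf.tsum_eq_add_tsum_ite 0

/-- comparison of sums over `k ≠ 0` -/
lemma comp (a b : ℤ → ℂ) (C e : ℝ) (ha : Summable a)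
    (hb : Summable (fun k : ℤ => if k = 0 then (0:ℂ) else b k))
    (h : ∀ k : ℤ, k ≠ 0 → ‖a k - b k‖ ≤ C * e / (k:ℝ) ^ 2) :
    ‖∑' k, (if k = 0 then (0:ℂ) else a k) - ∑' k, (if k = 0 then (0:ℂ) else b k)‖ ≤
      e * ∑' k : ℤ, (if k = 0 then (0:ℝ) else C / (k:ℝ) ^ 2) := by
  have ha' : Summable (fun k : ℤ => if k = 0 then (0:ℂ) else a k) := by
    have := (hasSum_ite_sub_hasSum ha.hasSum 0).summable
    exact this
  rw [← ha'.tsum_sub hb, ← tsum_mul_left]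
  refine tsum_of_norm_bounded ((summ_sq C).mul_left e).hasSum fun k => ?_
  by_cases hk : k = 0
  · simp [hk]
  · simp only [hk, if_false]
    refine (h k hk).trans (le_of_eq ?_)
    ring

lemma summJ {J : ℤ → ℂ} {C : ℝ} (h : ∀ k : ℤ, k ≠ 0 → ‖J k‖ ≤ C / (k:ℝ) ^ 2) :
    Summable (fun k : ℤ => if k = 0 then (0:ℂ) else J k) := by
  refine Summable.of_norm_bounded (summ_sq C) fun k => ?_
  by_cases hk : k = 0
  · simp [hk]
  · simp only [hk, if_false]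
    exact h k hk

/-- `z e^{-z/4} → 0`. -/
lemma tend_exp : Tendsto (fun z : ℝ => z * Real.exp (-(z / 4))) atTop (𝓝 0) := by
  have h := Real.tendsto_pow_mul_exp_neg_atTop_nhds_zero 1
  have h2 : Tendsto (fun z : ℝ => z / 4) atTop atTop :=
    tendsto_id.atTop_div_const (by norm_num)
  have h3 := (h.comp h2).const_mul 4
  rw [mul_zero] at h3
  refine h3.congr fun z => ?_
  simp only [Function.comp, pow_one]
  ring

theorem main (h1 : G_ASM) (h2 : G_KS) (h3 : G_K0) (h4 : G_JV) (h5 : G_MTH) : EC237.PE := by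
  obtain ⟨hS, hT⟩ := h1
  obtain ⟨C, hC, hKS⟩ := h2
  obtain ⟨c1, c2, c5, hK0, hB0⟩ := h3
  -- summability
  have s1 := summJ (J := J1) (C := C) fun k hk => (hKS k hk).1.1
  have s2 := summJ (J := J2) (C := C) fun k hk => (hKS k hk).1.2.1
  have s3 := summJ (J := J3) (C := C) fun k hk => (hKS k hk).1.2.2.1
  have s4 := summJ (J := J4) (C := C) fun k hk => (hKS k hk).1.2.2.2.1
  have s5 := summJ (J := J5) (C := C) fun k hk => (hKS k hk).1.2.2.2.2
  set S1 := ∑' k : ℤ, (if k = 0 then (0:ℂ) else J1 k) with hS1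
  set S2 := ∑' k : ℤ, (if k = 0 then (0:ℂ) else J2 k) with hS2
  set S3 := ∑' k : ℤ, (if k = 0 then (0:ℂ) else J3 k) with hS3
  set S4 := ∑' k : ℤ, (if k = 0 then (0:ℂ) else J4 k) with hS4
  set S5 := ∑' k : ℤ, (if k = 0 then (0:ℂ) else J5 k) with hS5
  set B := ∑' k : ℤ, (if k = 0 then (0:ℝ) else C / (k:ℝ) ^ 2) with hB
  -- the sums over `k ≠ 0`
  have hA : Tendsto (fun z : ℝ => ∑' k : ℤ, (if k = 0 then (0:ℂ) else ∑' m : ℤ, tA z (k, m)) -
      1 / 9 * (S1 + z * S2 + z ^ 2 * S3)) atTop (𝓝 0) := by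
    have hz := tend_exp.mul_const B
    rw [zero_mul] at hz
    refine squeeze_zero_norm' ?_ hz
    filter_upwards [eventually_ge_atTop (1:ℝ)] with z hz1
    have hsum : HasSum (fun k : ℤ => if k = 0 then (0:ℂ) else
        1 / 9 * (J1 k + z * J2 k + z ^ 2 * J3 k)) (1 / 9 * (S1 + z * S2 + z ^ 2 * S3)) := by
      have := (((s1.hasSum.add (s2.hasSum.mul_left (z:ℂ))).add
        (s3.hasSum.mul_left ((z:ℂ) ^ 2))).mul_left (1 / 9 : ℂ))
      have e : (fun k : ℤ => if k = 0 then (0:ℂ) else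
          1 / 9 * (J1 k + z * J2 k + z ^ 2 * J3 k)) = fun k : ℤ => (1 / 9 : ℂ) *
          (((if k = 0 then (0:ℂ) else J1 k) + (z:ℂ) * (if k = 0 then (0:ℂ) else J2 k)) +
            (z:ℂ) ^ 2 * (if k = 0 then (0:ℂ) else J3 k)) := by
        funext k
        by_cases hk : k = 0
        · simp [hk]
        · simp only [hk, if_false]
      rw [e]
      exact this
    have := comp (fun k => ∑' m : ℤ, tA z (k, m)) (fun k => 1 / 9 * (J1 k + z * J2 k + z ^ 2 * J3 k))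
      C (z * Real.exp (-(z / 4))) (hS z hz1).1.prod hsum.summable
      (fun k hk => by
        refine ((hKS k hk).2 z hz1).1.trans (le_of_eq ?_)
        ring)
    rw [hsum.tsum_eq] at this
    exact this
  have hBt : Tendsto (fun z : ℝ => ∑' k : ℤ, (if k = 0 then (0:ℂ) else ∑' m : ℤ, tB z (k, m)) -
      1 / 9 * (32 * w1 ^ 2 * S4 - 16 * w1 * Z13 * z ^ 2 * S5)) atTop (𝓝 0) := by
    have hz := tend_exp.mul_const B
    rw [zero_mul] at hz
    refine squeeze_zero_norm' ?_ hz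
    filter_upwards [eventually_ge_atTop (1:ℝ)] with z hz1
    have hsum : HasSum (fun k : ℤ => if k = 0 then (0:ℂ) else
        1 / 9 * (32 * w1 ^ 2 * J4 k - 16 * w1 * Z13 * z ^ 2 * J5 k))
        (1 / 9 * (32 * w1 ^ 2 * S4 - 16 * w1 * Z13 * z ^ 2 * S5)) := by
      have := ((s4.hasSum.mul_left (32 * (w1:ℂ) ^ 2)).sub
        (s5.hasSum.mul_left (16 * (w1:ℂ) * Z13 * (z:ℂ) ^ 2))).mul_left (1 / 9 : ℂ)
      have e : (fun k : ℤ => if k = 0 then (0:ℂ) else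
          1 / 9 * (32 * w1 ^ 2 * J4 k - 16 * w1 * Z13 * z ^ 2 * J5 k)) = fun k : ℤ => (1 / 9 : ℂ) *
          (32 * (w1:ℂ) ^ 2 * (if k = 0 then (0:ℂ) else J4 k) -
            16 * (w1:ℂ) * Z13 * (z:ℂ) ^ 2 * (if k = 0 then (0:ℂ) else J5 k)) := by
        funext k
        by_cases hk : k = 0
        · simp [hk]
        · simp only [hk, if_false]
      rw [e]
      exact this
    have := comp (fun k => ∑' m : ℤ, tB z (k, m))
      (fun k => 1 / 9 * (32 * w1 ^ 2 * J4 k - 16 * w1 * Z13 * z ^ 2 * J5 k))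
      C (z * Real.exp (-(z / 4))) (hS z hz1).2.prod hsum.summable
      (fun k hk => by
        refine ((hKS k hk).2 z hz1).2.trans (le_of_eq ?_)
        ring)
    rw [hsum.tsum_eq] at this
    exact this
  -- the limit
  set θ : ℤ → ℝ := fun k => ∫ t : ℝ, taur k t ^ 2 / (t ^ 2 + (k:ℝ) ^ 2) with hθ
  set c0 : ℂ := ((2 / 3 * (1 / 6 * (-(64 * Real.pi ^ 2 / 3)) *
      (∫ t : ℝ, taur 0 t ^ 2 / (t ^ 2 + ((0:ℤ):ℝ) ^ 2)) -
      2 * Real.pi * w1 * (Real.pi / (6 * Real.sqrt 3)) * zeta5) : ℝ) : ℂ) with hc0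
  have hlim : Tendsto (fun z : ℝ => PhiB ((z⁻¹:ℝ):ℂ) - ((c1 + 1 / 9 * S2) * z +
      (c2 + 1 / 9 * S3 - 16 / 9 * w1 * Z13 * S5) * (z:ℂ) ^ 2 + c5 * (z:ℂ) ^ 5)) atTop
      (𝓝 (c0 + 1 / 9 * S1 + 32 / 9 * w1 ^ 2 * S4)) := by
    have h := ((hT.add hK0).add hA).add hBt
    have h' := h.add_const (1 / 9 * S1 + 32 / 9 * (w1:ℂ) ^ 2 * S4)
    have e0 : (0:ℂ) + c0 + 0 + 0 + (1 / 9 * S1 + 32 / 9 * (w1:ℂ) ^ 2 * S4) =
        c0 + 1 / 9 * S1 + 32 / 9 * w1 ^ 2 * S4 := by ring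
    rw [e0] at h'
    refine h'.congr' ?_
    filter_upwards [eventually_ge_atTop (1:ℝ)] with z hz1
    obtain ⟨hsA, hsB⟩ := hS z hz1
    have eA : ∑' s : ℤ × ℤ, tA z s = ∑' k : ℤ, ∑' m : ℤ, tA z (k, m) := hsA.tsum_prod
    have eB : ∑' s : ℤ × ℤ, tB z s = ∑' k : ℤ, ∑' m : ℤ, tB z (k, m) := hsB.tsum_prod
    have eA' : ∑' k : ℤ, ∑' m : ℤ, tA z (k, m) = ∑' m : ℤ, tA z (0, m) +
        ∑' k : ℤ, (if k = 0 then (0:ℂ) else ∑' m : ℤ, tA z (k, m)) := split hsA.prod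
    have eB' : ∑' k : ℤ, ∑' m : ℤ, tB z (k, m) = ∑' m : ℤ, tB z (0, m) +
        ∑' k : ℤ, (if k = 0 then (0:ℂ) else ∑' m : ℤ, tB z (k, m)) := split hsB.prod
    have eB0 : ∑' m : ℤ, tB z (0, m) = 0 := by
      rw [tsum_congr (hB0 z), tsum_zero]
    rw [eA, eB, eA', eB', eB0]
    ring
  -- the value of the limit
  have hS1v : S1 = ((-(64 * Real.pi ^ 2 / 3) * (Real.pi / 128 * (13 / 2 * zeta5) - θ 0) : ℝ) : ℂ) := by
    have hθs : HasSum (fun k : ℤ => if k = 0 then (0:ℝ) else θ k)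
        (Real.pi / 128 * (13 / 2 * zeta5) - θ 0) := hasSum_ite_sub_hasSum h5.2 0
    have h6 := (hθs.mul_left (-(64 * Real.pi ^ 2 / 3)))
    have h7 := Complex.hasSum_ofReal.2 h6
    rw [hS1, ← h7.tsum_eq]
    refine tsum_congr fun k => ?_
    by_cases hk : k = 0
    · simp [hk]
    · simp only [hk, if_false]
      exact (h4 k hk).1
  have hS4v : S4 = ((5 * Real.pi / 16 * (2 * zeta5) : ℝ) : ℂ) := by
    have h6 := Complex.hasSum_ofReal.2 (sum5.mul_left (5 * Real.pi / 16))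
    rw [hS4, ← h6.tsum_eq]
    refine tsum_congr fun k => ?_
    by_cases hk : k = 0
    · simp [hk]
    · simp only [hk, if_false]
      rw [(h4 k hk).2]
      congr 1
      ring
  have hval : (c0 + 1 / 9 * S1 + 32 / 9 * w1 ^ 2 * S4) = ((Real.pi ^ 3 * zeta5 / 36 : ℝ) : ℂ) := by
    have hθ0 : θ 0 = ∫ t : ℝ, taur 0 t ^ 2 / (t ^ 2 + ((0:ℤ):ℝ) ^ 2) := rfl
    rw [hS1v, hS4v, hc0, ← hθ0]
    have h3 : Real.sqrt 3 ^ 2 = 3 := Real.sq_sqrt (by norm_num)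
    have h30 : Real.sqrt 3 ≠ 0 := by positivity
    have hw : w1 * (Real.pi / (6 * Real.sqrt 3)) = Real.pi ^ 2 / 36 := by
      unfold w1
      field_simp
      ring
    have hw2 : w1 ^ 2 = Real.pi ^ 2 / 12 := by
      unfold w1
      rw [div_pow, mul_pow, h3]
      ring
    have hR : 2 / 3 * (1 / 6 * (-(64 * Real.pi ^ 2 / 3)) * θ 0 -
        2 * Real.pi * w1 * (Real.pi / (6 * Real.sqrt 3)) * zeta5) +
        1 / 9 * (-(64 * Real.pi ^ 2 / 3) * (Real.pi / 128 * (13 / 2 * zeta5) - θ 0)) +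
        32 / 9 * w1 ^ 2 * (5 * Real.pi / 16 * (2 * zeta5)) = Real.pi ^ 3 * zeta5 / 36 := by
      have e : 2 * Real.pi * w1 * (Real.pi / (6 * Real.sqrt 3)) =
          2 * Real.pi * (w1 * (Real.pi / (6 * Real.sqrt 3))) := by ring
      rw [e, hw, hw2]
      ring
    rw [← hR]
    push_cast
    ring
  rw [hval] at hlim
  refine ⟨Polynomial.C (c1 + 1 / 9 * S2).re * Polynomial.X +
    Polynomial.C (c2 + 1 / 9 * S3 - 16 / 9 * w1 * Z13 * S5).re * Polynomial.X ^ 2 +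
    Polynomial.C c5.re * Polynomial.X ^ 5, ?_, ?_⟩
  · simp
  · have hre := (Complex.continuous_re.tendsto _).comp hlim
    rw [Complex.ofReal_re] at hre
    refine hre.congr fun z => ?_
    simp only [Function.comp, Polynomial.eval_add, Polynomial.eval_mul, Polynomial.eval_C,
      Polynomial.eval_X, Polynomial.eval_pow, Complex.sub_re, Complex.add_re]
    have e1 : ((c1 + 1 / 9 * S2) * (z:ℂ)).re = (c1 + 1 / 9 * S2).re * z := by
      rw [Complex.re_mul_ofReal]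
    have e2 : ((c2 + 1 / 9 * S3 - 16 / 9 * w1 * Z13 * S5) * (z:ℂ) ^ 2).re =
        (c2 + 1 / 9 * S3 - 16 / 9 * w1 * Z13 * S5).re * z ^ 2 := by
      rw [← Complex.ofReal_pow, Complex.re_mul_ofReal]
    have e3 : (c5 * (z:ℂ) ^ 5).re = c5.re * z ^ 5 := by
      rw [← Complex.ofReal_pow, Complex.re_mul_ofReal]
    rw [e1, e2, e3]
    simp only [Complex.sub_re, Complex.add_re]

end EC237.ZE.Fin
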