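import Pool.Agent.Helper23.EC.Interface

/-!
# MP_ecc237_nt, PART E, block M: multiple zeta values of weight 5 and rational integrals
-/

set_option autoImplicit false

open MeasureTheory Filter Topology Set

namespace EC237.ZE

/-- `H^{(a)}_n = Σ_{m=1}^n m^{-a}`. -/
noncomputable def Hs (a n : ℕ) : ℝ := ∑ m ∈ Finset.range n, 1 / ((m:ℝ) + 1) ^ a

/-- `Z_N = Σ_{M<N} h_M/M²`, `N = n+1`, `h_M = H_{M-1}`. -/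
noncomputable def Zn (n : ℕ) : ℝ := ∑ m ∈ Finset.range n, Hs 1 m / ((m:ℝ) + 1) ^ 2

/-- `Y_N = Σ_{M<N} h_M/M³`. -/
noncomputable def Yn (n : ℕ) : ℝ := ∑ m ∈ Finset.range n, Hs 1 m / ((m:ℝ) + 1) ^ 3

/-- `ζ_{N-1}(1,1) = Σ_{M<N} h_M/M`. -/
noncomputable def En (n : ℕ) : ℝ := ∑ m ∈ Finset.range n, Hs 1 m / ((m:ℝ) + 1)

noncomputable def z4 : ℝ := ∑' n : ℕ, 1 / ((n:ℝ) + 1) ^ 4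
noncomputable def z31 : ℝ := ∑' n : ℕ, Hs 1 n / ((n:ℝ) + 1) ^ 3
noncomputable def z41 : ℝ := ∑' n : ℕ, Hs 1 n / ((n:ℝ) + 1) ^ 4
noncomputable def z32 : ℝ := ∑' n : ℕ, Hs 2 n / ((n:ℝ) + 1) ^ 3
noncomputable def z23 : ℝ := ∑' n : ℕ, Hs 3 n / ((n:ℝ) + 1) ^ 2
noncomputable def z311 : ℝ := ∑' n : ℕ, En n / ((n:ℝ) + 1) ^ 3
noncomputable def z221 : ℝ := ∑' n : ℕ, Zn n / ((n:ℝ) + 1) ^ 2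

/-- weight: `2` if `P+Q > N`, `1` if `P+Q = N`, `0` if `P+Q < N`, and a factor `1/2` for `P = N`,
and a factor `1/2` for `Q = N` (`N = n+1`, `P = p+1`, `Q = q+1`). -/
noncomputable def wt (n p q : ℕ) : ℝ :=
  (if p + q + 1 < n then 0 else if p + q + 1 = n then 1 else 2) *
    (if p = n then 1 / 2 else 1) * (if q = n then 1 / 2 else 1)

/-- `Σ ω P^{-a} Q^{-b}`, `N = n+1`. -/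
noncomputable def Sab (a b n : ℕ) : ℝ :=
  ∑ p ∈ Finset.range (n + 1), ∑ q ∈ Finset.range (n + 1),
    wt n p q / (((p:ℝ) + 1) ^ a * ((q:ℝ) + 1) ^ b)

/-- weight `1/2` at `0`. -/
noncomputable def w0 (j : ℕ) : ℝ := if j = 0 then 1 / 2 else 1

/-- the term `(1/(NPQ))(2/N²+1/(NP)+1/(NQ)+1/(PQ))`. -/
noncomputable def gg (N P Q : ℝ) : ℝ :=
  1 / (N * P * Q) * (2 / N ^ 2 + 1 / (N * P) + 1 / (N * Q) + 1 / (P * Q))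

/-- term of `𝒯` in the variables `k, i, j`: `N = |k|+i+j`, `P = |k|+i`, `Q = |k|+j`. -/
noncomputable def gT (q : ℤ × ℕ × ℕ) : ℝ :=
  w0 q.2.1 * w0 q.2.2 * gg (|(q.1:ℝ)| + q.2.1 + q.2.2) (|(q.1:ℝ)| + q.2.1) (|(q.1:ℝ)| + q.2.2)

/-! ## Packets M -/

/-- MSUM: summability of all the series (harmonic numbers are `O(log)`, crude bounds such as
`0 ≤ Hs 1 n ≤ 2 √(n+1)`, `Hs 2 n, Hs 3 n, Hs 4 n ≤ 2`, `0 ≤ En n ≤ (Hs 1 n)^2 ≤ 4 (n+1)`... choose: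
`Hs 1 n ≤ 4 (n+1)^(1/4)` gives `En n ≤ (Hs 1 n)^2 ≤ 16 (n+1)^(1/2)`, `Zn n, Yn n ≤ 8`). -/
def G_MSUM : Prop :=
  Summable (fun n : ℕ => 1 / ((n:ℝ) + 1) ^ 4) ∧ Summable (fun n : ℕ => 1 / ((n:ℝ) + 1) ^ 5) ∧
  Summable (fun n : ℕ => Hs 1 n / ((n:ℝ) + 1) ^ 3) ∧
  Summable (fun n : ℕ => Hs 1 n / ((n:ℝ) + 1) ^ 4) ∧
  Summable (fun n : ℕ => Hs 2 n / ((n:ℝ) + 1) ^ 3) ∧
  Summable (fun n : ℕ => Hs 3 n / ((n:ℝ) + 1) ^ 2) ∧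
  Summable (fun n : ℕ => En n / ((n:ℝ) + 1) ^ 3) ∧
  Summable (fun n : ℕ => Zn n / ((n:ℝ) + 1) ^ 2) ∧
  Summable (fun n : ℕ => Hs 1 n ^ 2 / ((n:ℝ) + 1) ^ 3) ∧
  (∀ n : ℕ, 0 ≤ Hs 1 n ∧ 0 ≤ En n ∧ 0 ≤ Zn n ∧ 0 ≤ Yn n)

/-- MA: `ζ(4) = 4ζ(3,1)`. PROOF: `ζ(2)² = Σ_{m,n} 1/(m²n²)`. Stuffle (`m>n`, `m<n`, `m=n`):
`= 2ζ(2,2) + ζ(4)`. Partial fractions with `N = m+n`:
`1/(m²n²) = N⁻²(m⁻²+n⁻²) + 2N⁻³(m⁻¹+n⁻¹)`, sum over the antidiagonals: `= 2ζ(2,2) + 4ζ(3,1)`.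
(Mathlib: `tsum_mul_tsum_eq_tsum_sum_antidiagonal`, and `tsum` over pairs split by order.) -/
def G_MA : Prop := z4 = 4 * z31

/-- MB: `ζ(5) = 2ζ(3,2) + 6ζ(4,1)`. PROOF: `ζ(2)ζ(3) = Σ 1/(m²n³)`: stuffle
`= ζ(2,3) + ζ(3,2) + ζ(5)`; partial fractions (`N = m+n`): `1/(m²n³) = N⁻²n⁻³ + 2N⁻³n⁻² + 3N⁻⁴n⁻¹ +
N⁻³m⁻² + 3N⁻⁴m⁻¹`, so `= ζ(2,3) + 3ζ(3,2) + 6ζ(4,1)`. -/
def G_MB : Prop := zeta5 = 2 * z32 + 6 * z41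

/-- MC: `ζ(5) = ζ(4,1) + ζ(3,2) + ζ(2,3)`. PROOF: for `n > m ≥ 1`:
`n⁻²m⁻³ + n⁻³m⁻² + n⁻⁴m⁻¹ = 1/(m³n(n-m)) - 1/(n⁴(n-m))`; all terms positive; sum over `n > m`:
`Σ_{n>m} 1/(n(n-m)) = H_m/m` (telescoping in blocks of length `m`), so the first sum is
`Σ H_m/m⁴ = ζ(4,1) + ζ(5)`; the second is `Σ_n n⁻⁴ h_n = ζ(4,1)`. -/
def G_MC : Prop := zeta5 = z41 + z32 + z23

/-- MD: `ζ(4,1) + ζ(3,2) = ζ(3,1,1) + ζ(2,2,1)`. PROOF: `A := Σ_n n⁻³ h_n H_n` (`H_n = h_n+1/n`).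
First way: `h_n² = 2 ζ_{n-1}(1,1) + H^{(2)}_{n-1}`, so `A = 2ζ(3,1,1) + ζ(3,2) + ζ(4,1)`. Second way:
`H_n = Σ_{l≥1} n/(l(l+n))`, so `A = Σ_{n,l≥1} h_n/(n² l (l+n))`, and with `N = n+l`:
`1/(n² l N) = N⁻²n⁻² + N⁻³n⁻¹ + N⁻³l⁻¹`; the sum over the antidiagonals gives
`ζ(2,2,1) + ζ(3,1,1) + Σ_N N⁻³ Σ_{n+l=N} h_n/l` and `Σ_{n+l=N} h_n/l = Σ_{m+l<N} 1/(ml) =
Σ_{M<N} 2h_M/M = 2ζ_{N-1}(1,1)`. All terms are nonnegative. -/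
def G_MD : Prop := z41 + z32 = z311 + z221

/-- ME: `ζ(2,2,1) + 6ζ(3,1,1) = ζ(4,1) + ζ(2,3)`. PROOF: `ζ(2)ζ(2,1) = Σ_{l,n} h_n/(l²n²)`. By the
order of `l` and `n` (and `l` and `m` in `h_n = Σ_{m<n} 1/m`):
`= 2ζ(2,2,1) + ζ(4,1) + ζ(2,3) + ζ(2,1,2)`, `ζ(2,1,2) := Σ_n n⁻² Σ_{m<n} H^{(2)}_{m-1}/m`. Partial
fractions, `N = l+n`: `1/(l²n²) = N⁻²(l⁻²+n⁻²) + 2N⁻³(l⁻¹+n⁻¹)`; the weights `h_n`: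
`ζ(2,2,1) + 2ζ(3,1,1) + 2·2ζ(3,1,1) + Σ_N N⁻² Σ_{l+n=N} h_n/l²` and `Σ_{l+n=N} h_n/l² =
Σ_{l+m<N} 1/(ml²) = Σ_{M<N} (H^{(2)}_{M-1}/M + 2h_M/M²)`: `= ζ(2,1,2) + 2ζ(2,2,1)`. -/
def G_ME : Prop := z221 + 6 * z311 = z41 + z23

/-- MS1: PROOF: `Sab a b = 2(Hs a n + ½N^{-a})(Hs b n + ½N^{-b}) - 2Σ_{P+Q<N} P^{-a}Q^{-b} -
Σ_{P+Q=N} P^{-a}Q^{-b}` and `Σ_{P+Q=M} 1/(PQ) = 2h_M/M`, so `Σ_{P+Q<N} 1/(PQ) = Σ_{M<N} 2h_M/M =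
h_N² - H^{(2)}_{N-1}`. -/
def G_MS1 : Prop := ∀ n : ℕ, Sab 1 1 n = 2 * Hs 2 n + 1 / (2 * ((n:ℝ) + 1) ^ 2)

/-- MS2: PROOF: as MS1 with `1/(P²Q) = 1/(MP²) + 1/(M²P) + 1/(M²Q)` on `P+Q = M`; so
`Σ_{P+Q<N} 1/(P²Q) = Σ_{M<N} (H^{(2)}_{M-1}/M + 2h_M/M²) = H^{(2)}h - H^{(3)} + Z_N`
(all at `N-1`; `Σ_{M<N}(H^{(2)}_{M-1}/M + h_M/M²) = H^{(2)}h - H^{(3)}`). -/
def G_MS2 : Prop := ∀ n : ℕ,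
  Sab 2 1 n = 2 * (Hs 3 n - Zn n) - Hs 1 n / ((n:ℝ) + 1) ^ 2 + 1 / (2 * ((n:ℝ) + 1) ^ 3) ∧
  Sab 1 2 n = 2 * (Hs 3 n - Zn n) - Hs 1 n / ((n:ℝ) + 1) ^ 2 + 1 / (2 * ((n:ℝ) + 1) ^ 3)

/-- MS3: PROOF: as MS1 with `1/(P²Q²) = M⁻²(P⁻²+Q⁻²) + 2M⁻³(P⁻¹+Q⁻¹)`; so
`Σ_{P+Q<N} 1/(P²Q²) = Σ_{M<N}(2H^{(2)}_{M-1}/M² + 4h_M/M³) = (H^{(2)})² - H^{(4)} + 4Y_N`. -/
def G_MS3 : Prop := ∀ n : ℕ,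
  Sab 2 2 n = 2 * (Hs 4 n - 4 * Yn n) - 4 * Hs 1 n / ((n:ℝ) + 1) ^ 3 + 1 / (2 * ((n:ℝ) + 1) ^ 4)

/-- MY (assuming MSUM, MA): PROOF: `2 H^{(4)}_{N-1} - 8 Y_N = -2Σ_{M≥N} M⁻⁴ + 8Σ_{M≥N} h_M M⁻³`
(as `ζ(4) = 4ζ(3,1)`), exchange the sums over `N ≤ M` (nonnegative terms):
`-2Σ_M H_M M⁻⁴ + 8Σ_M h_M H_M M⁻³`, `H_M = h_M + 1/M`, `h_M² = 2ζ_{M-1}(1,1) + H^{(2)}_{M-1}`. -/
def G_MY : Prop := HasSum (fun n : ℕ => (2 * Hs 4 n - 8 * Yn n) / ((n:ℝ) + 1))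
  (6 * z41 - 2 * zeta5 + 16 * z311 + 8 * z32)

/-- MT (assuming MSUM, MB, MC, MD, ME, MS1, MS2, MS3, MY): `𝒯 = (13/2)ζ(5)`. PROOF: insert MS1-3:
`Σ_N [4H²/N³ + 1/N⁵ + 4H³/N² - 4Z_N/N² - 2h/N⁴ + 1/N⁵ + (2H⁴-8Y_N)/N - 4h/N⁴ + 1/(2N⁵)]`
`= 12ζ(3,2) + 4ζ(2,3) - 4ζ(2,2,1) + 16ζ(3,1,1) + ½ζ(5)`, then `linarith` with the relations. -/
def G_MT : Prop := HasSum (fun n : ℕ => 1 / ((n:ℝ) + 1) * (2 / ((n:ℝ) + 1) ^ 2 * Sab 1 1 n +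
  1 / ((n:ℝ) + 1) * (Sab 2 1 n + Sab 1 2 n) + Sab 2 2 n)) (13 / 2 * zeta5)

/-- MK (assuming MT): the sum in the variables `k ∈ ℤ`, `i, j ∈ ℕ`. PROOF: nonnegative terms; fibre
over `N = |k|+i+j`: given `N ≥ 1` and `1 ≤ P, Q ≤ N` with `P+Q ≥ N` put `|k| = P+Q-N`, `i = N-Q`,
`j = N-P`; there are two `k` if `P+Q > N`, one if `P+Q = N`; `w0 i = 1/2` iff `Q = N`,
`w0 j = 1/2` iff `P = N`. The terms with `P = 0` or `Q = 0` (`k = 0` and `i = 0` or `j = 0`) are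
zero (division by zero), as are those with `N = 0`. Finite sums over `(P,Q)` at fixed `N`:
`Σ ω gg(N,P,Q) = (1/N)(2/N²·Sab 1 1 + (1/N)(Sab 2 1 + Sab 1 2) + Sab 2 2)`. Summability over
`ℤ × ℕ × ℕ` from summability of the fibre sums of nonnegative terms
(`summable_sigma_of_nonneg` / `HasSum` of an equivalence to a sigma type). -/
def G_MK : Prop := HasSum gT (13 / 2 * zeta5)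

/-! ## Integrals -/

/-- MI: PROOF: the integrand is even, continuous for `a > 0` and `≤ AB/((t²+A²)²(t²+B²)²)`. For
pairwise distinct `a, A, B > 0`: partial fractions in `X = t²`,
`t²/((X+a²)(X+A²)²(X+B²)²)` is a combination of `1/(X+a²), 1/(X+A²), 1/(X+A²)², 1/(X+B²),
1/(X+B²)²` and `∫dt/(t²+c²) = π/c`, `∫dt/(t²+c²)² = π/(2c³)` (`integral_univ_inv_one_add_sq`; for
the second use `c²/(t²+c²)² = (1/2)(1/(t²+c²)) + (1/2)(d/dt)(t/(t²+c²))`). Both sides are continuous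
in `(a, A, B)`, `a ≥ 0`, `A, B > 0` (dominated convergence, `t²/(t²+a²) ≤ 1`), so the formula holds
in general. (Check: it is `(1/4)∂_A∂_B (π/((a+A)(a+B)(A+B)))`.) -/
def G_MI : Prop := ∀ a A B : ℝ, 0 ≤ a → 0 < A → 0 < B →
  Integrable (fun t : ℝ => A * B * t ^ 2 / ((t ^ 2 + a ^ 2) * (t ^ 2 + A ^ 2) ^ 2 *
    (t ^ 2 + B ^ 2) ^ 2)) ∧
  ∫ t : ℝ, A * B * t ^ 2 / ((t ^ 2 + a ^ 2) * (t ^ 2 + A ^ 2) ^ 2 * (t ^ 2 + B ^ 2) ^ 2) =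
    Real.pi / 128 * gg ((A + B) / 2) ((a + A) / 2) ((a + B) / 2)

/-- `τ_k(t) = t Σ''_{A ≥ |k|, A ≡ k (2)} A/(t²+A²)²`, `A = |k|+2j`, weight `w0 j`. -/
noncomputable def taur (k : ℤ) (t : ℝ) : ℝ :=
  t * ∑' j : ℕ, w0 j * (|(k:ℝ)| + 2 * j) / (t ^ 2 + (|(k:ℝ)| + 2 * j) ^ 2) ^ 2

/-- MTH (assuming MI, MK): PROOF: `τ_k² /(t²+k²) = Σ_{i,j} w0 i w0 j AB t²/((t²+k²)(t²+A²)²
(t²+B²)²)`, `A = |k|+2i`, `B = |k|+2j` (for `k = 0` the terms with `A = 0` or `B = 0` are zero), all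
terms nonnegative; integrate termwise (`hasSum_integral_of_summable_integral_norm`), MI, and sum
over `k`, `i`, `j` (MK: `HasSum gT`, first component `k`, `HasSum.prod_fiberwise`). -/
def G_MTH : Prop := (∀ k : ℤ, Integrable (fun t : ℝ => taur k t ^ 2 / (t ^ 2 + (k:ℝ) ^ 2))) ∧
  HasSum (fun k : ℤ => ∫ t : ℝ, taur k t ^ 2 / (t ^ 2 + (k:ℝ) ^ 2))
    (Real.pi / 128 * (13 / 2 * zeta5))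

/-- MP: (E.10). PROOF: `2k²-6t² = 8k²-6(t²+k²)`, `∫dt/(t²+k²)⁵ = 35π/(128|k|⁹)`,
`∫dt/(t²+k²)⁴ = 5π/(16|k|⁷)` (recursion: `d/dt (t/(t²+k²)^n) = (1-2n)/(t²+k²)^n +
2nk²/(t²+k²)^{n+1}`). -/
def G_MP : Prop := ∀ k : ℤ, k ≠ 0 →
  Integrable (fun t : ℝ => (k:ℝ) ^ 2 * (2 * (k:ℝ) ^ 2 - 6 * t ^ 2) / (t ^ 2 + (k:ℝ) ^ 2) ^ 5) ∧
  ∫ t : ℝ, (k:ℝ) ^ 2 * (2 * (k:ℝ) ^ 2 - 6 * t ^ 2) / (t ^ 2 + (k:ℝ) ^ 2) ^ 5 =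
    5 * Real.pi / 16 / |(k:ℝ)| ^ 5

end EC237.ZE
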