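import Pool.Agent.Helper23.EC.DGoalsA
import Pool.Agent.Helper7.EC_E.GoalsM

/-!
# MP_ecc237_nt, PART E, blocks R (reduced form (E.1)), C (cotangent sums), N (sums over `n`),
E (errors and main terms)
-/

set_option autoImplicit false

open MeasureTheory Filter Topology Set

namespace EC237.ZE

/-! ## Definitions -/

/-- `Σ_{κ+κ'=s, κ∈Λ_{c1}, κ'∈Λ_{c2}} [x^i] X(κ - a1 x, κ' - a2 x)`. -/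
noncomputable def XS (c1 c2 a1 a2 : ℤ) (i : ℕ) (w : ℂ) (s : ℤ × ℤ) : ℂ :=
  ∑' k : ℤ × ℤ, if InCl c1 k ∧ InCl c2 (s - k) then
    PowerSeries.coeff i (XX w (k, a1) (s - k, a2)) else 0

/-- `Y(s)`. -/
noncomputable def Yv (w : ℂ) (s : ℤ × ℤ) : ℂ := XS 1 1 1 0 1 w s

/-- `W(s)`. -/
noncomputable def Wv (w : ℂ) (s : ℤ × ℤ) : ℂ := XS 1 3 1 (-1) 1 w (-s)

/-- `E_j(s)`. -/
noncomputable def Ev (j : ℕ) (w : ℂ) (s : ℤ × ℤ) : ℂ := XS 1 5 1 (-1) j w s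

/-- first sum of (E.1) -/
noncomputable def eA (y : ℝ) (s : ℤ × ℤ) : ℂ :=
  if InCl 2 s then Yv (y:ℂ) s * (Wv (y:ℂ) s - Yv (y:ℂ) s) / (Nn y s : ℂ) else 0

/-- second sum of (E.1) -/
noncomputable def eB (y : ℝ) (s : ℤ × ℤ) : ℂ :=
  if InCl 0 s then Ev 0 (y:ℂ) s * Ev 2 (y:ℂ) s / (Nn y s : ℂ) else 0

/-- `[x²] Q_s`. -/
noncomputable def cQ (w : ℂ) (v1 v2 v3 v4 : SV) : ℂ := PowerSeries.coeff 2 (Qs w v1 v2 v3 v4)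

/-- `[x²] Q_t`. -/
noncomputable def cQt (w : ℂ) (v1 v2 v3 v4 : SV) : ℂ := PowerSeries.coeff 2 (Qs w v2 v3 v4 v1)

/-- exponents of the bounds (D.6). -/
noncomputable def ex3 (i : ℕ) : ℝ := if i = 0 then 1 / 2 else if i = 1 then -(1 / 2) else -1

/-- `X = m - i n z`. -/
noncomputable def Xz (z : ℝ) (k : ℤ × ℤ) : ℂ := (k.2:ℂ) - Complex.I * (k.1:ℂ) * z

/-- `Y = m + i n z`. -/
noncomputable def Yz (z : ℝ) (k : ℤ × ℤ) : ℂ := (k.2:ℂ) + Complex.I * (k.1:ℂ) * z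

/-- `S_r(c,ξ) = Σ_{m ≡ c (6)} (m+ξ)^{-r}`; `S_1` is the symmetric sum, a cotangent. -/
noncomputable def Sf (r : ℕ) (c : ℤ) (ξ : ℂ) : ℂ :=
  if r = 1 then (Real.pi / 6) * Complex.cot (Real.pi * ((c:ℂ) + ξ) / 6)
  else ∑' j : ℤ, 1 / (6 * (j:ℂ) + (c:ℂ) + ξ) ^ r

/-- `Δ = m + i(n2-n1)z`, `n1 = n`, `n2 = s.1 - n`, `m = s.2`. -/
noncomputable def Dz (z : ℝ) (s : ℤ × ℤ) (n : ℤ) : ℂ :=
  (s.2:ℂ) + Complex.I * ((s.1:ℂ) - 2 * (n:ℂ)) * z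

/-- `S_r` at the first place: class `c - 3n`, argument `-inz`. -/
noncomputable def Sa (r : ℕ) (c : ℤ) (z : ℝ) (n : ℤ) : ℂ :=
  Sf r (c - 3 * n) (-(Complex.I * (n:ℂ) * z))

/-- `S_r` at the second place: class `c - 3n`, argument `inz`. -/
noncomputable def Sb (r : ℕ) (c : ℤ) (z : ℝ) (n : ℤ) : ℂ :=
  Sf r (c - 3 * n) (Complex.I * (n:ℂ) * z)

/-- inner sum for `Y`. -/
noncomputable def PY (z : ℝ) (s : ℤ × ℤ) (n : ℤ) : ℂ :=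
  Sa 2 1 z n / Dz z s n + (Sa 1 1 z n + Sb 1 1 z (s.1 - n)) / Dz z s n ^ 2

/-- inner sum for `W`, at `s' = -s`. -/
noncomputable def PW (z : ℝ) (s : ℤ × ℤ) (n : ℤ) : ℂ :=
  (Sa 2 1 z n + Sb 2 3 z (s.1 - n)) / Dz z s n +
    2 * (Sa 1 1 z n + Sb 1 3 z (s.1 - n)) / Dz z s n ^ 2

open Classical in
/-- inner sum for `E_0`. -/
noncomputable def P0 (z : ℝ) (s : ℤ × ℤ) (n : ℤ) : ℂ :=
  if Dz z s n = 0 then -Sa 2 1 z n else (Sa 1 1 z n + Sb 1 5 z (s.1 - n)) / Dz z s n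

open Classical in
/-- inner sum for `E_2`. -/
noncomputable def P2 (z : ℝ) (s : ℤ × ℤ) (n : ℤ) : ℂ :=
  if Dz z s n = 0 then -Sa 4 1 z n else
    (Sa 3 1 z n + Sb 3 5 z (s.1 - n)) / Dz z s n +
      2 * (Sa 2 1 z n + Sb 2 5 z (s.1 - n)) / Dz z s n ^ 2 +
      4 * (Sa 1 1 z n + Sb 1 5 z (s.1 - n)) / Dz z s n ^ 3

/-- `w1 = √3π/6`. -/
noncomputable def w1 : ℝ := Real.sqrt 3 * Real.pi / 6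

/-- `Z_13 = √3π³/54`. -/
noncomputable def Z13 : ℝ := Real.sqrt 3 * Real.pi ^ 3 / 54

/-- limit of `Sa 1 c`, `v` is the value at `n = 0`. -/
noncomputable def la (v : ℝ) (n : ℤ) : ℂ := if n = 0 then (v:ℂ) else Complex.I * (Real.pi / 6) * (n.sign:ℂ)

/-- limit of `Sb 1 c`. -/
noncomputable def lb (v : ℝ) (n : ℤ) : ℂ := if n = 0 then (v:ℂ) else -(Complex.I * (Real.pi / 6) * (n.sign:ℂ))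

/-- limit of `Sa r c`, `r ≥ 2`. -/
noncomputable def l0 (v : ℝ) (n : ℤ) : ℂ := if n = 0 then (v:ℂ) else 0

/-- main part of `PY`. -/
noncomputable def MY' (z : ℝ) (s : ℤ × ℤ) (n : ℤ) : ℂ :=
  l0 (Real.pi ^ 2 / 9) n / Dz z s n + (la w1 n + lb w1 (s.1 - n)) / Dz z s n ^ 2

/-- main part of `PW`. -/
noncomputable def MW' (z : ℝ) (s : ℤ × ℤ) (n : ℤ) : ℂ :=
  (l0 (Real.pi ^ 2 / 9) n + l0 (Real.pi ^ 2 / 36) (s.1 - n)) / Dz z s n +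
    2 * (la w1 n + lb 0 (s.1 - n)) / Dz z s n ^ 2

/-- main part of `P0` (division by `0` is `0`). -/
noncomputable def M0' (z : ℝ) (s : ℤ × ℤ) (n : ℤ) : ℂ :=
  (la w1 n + lb (-w1) (s.1 - n)) / Dz z s n

/-- main part of `P2`. -/
noncomputable def M2' (z : ℝ) (s : ℤ × ℤ) (n : ℤ) : ℂ :=
  (l0 Z13 n + l0 (-Z13) (s.1 - n)) / Dz z s n +
    2 * (l0 (Real.pi ^ 2 / 9) n + l0 (Real.pi ^ 2 / 9) (s.1 - n)) / Dz z s n ^ 2 +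
    4 * (la w1 n + lb (-w1) (s.1 - n)) / Dz z s n ^ 3

/-- `τ_k(t)`, complex argument. -/
noncomputable def tauc (k : ℤ) (t : ℂ) : ℂ :=
  t * ∑' j : ℕ, (w0 j : ℂ) * ((|(k:ℝ)| + 2 * j : ℝ) : ℂ) / (t ^ 2 + ((|(k:ℝ)| + 2 * j : ℝ) : ℂ) ^ 2) ^ 2

/-- `φ̂`, `φ̂'`, `φ̂''`, `μ̂`. -/
noncomputable def ph (k : ℤ) (t : ℂ) : ℂ := (k:ℂ) / (t ^ 2 + (k:ℂ) ^ 2)
noncomputable def ph1 (k : ℤ) (t : ℂ) : ℂ := (t ^ 2 - (k:ℂ) ^ 2) / (t ^ 2 + (k:ℂ) ^ 2) ^ 2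
noncomputable def ph2 (k : ℤ) (t : ℂ) : ℂ :=
  (2 * (k:ℂ) ^ 3 - 6 * (k:ℂ) * t ^ 2) / (t ^ 2 + (k:ℂ) ^ 2) ^ 3
noncomputable def mu0 (k : ℤ) (t : ℂ) : ℂ := t / (t ^ 2 + (k:ℂ) ^ 2)

noncomputable def aF (k : ℤ) (t : ℂ) : ℂ := 8 * Real.pi / 3 * tauc k t - 4 * w1 * ph1 k t
noncomputable def bF (k : ℤ) (t : ℂ) : ℂ := -(2 * Real.pi ^ 2 / 9) * mu0 k t
noncomputable def cF (k : ℤ) (t : ℂ) : ℂ := -(8 * Real.pi) * tauc k t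
noncomputable def dF (k : ℤ) (t : ℂ) : ℂ := Real.pi ^ 2 / 2 * mu0 k t

/-- `t = m/z`. -/
noncomputable def tz (z : ℝ) (s : ℤ × ℤ) : ℂ := (s.2:ℂ) / (z:ℂ)

/-- main terms of `Y`, `W-Y`, `E_0`, `E_2`, divided by `i z²`. -/
noncomputable def yM (z : ℝ) (s : ℤ × ℤ) : ℂ := (z:ℂ)⁻¹ * aF s.1 (tz z s) + bF s.1 (tz z s)
noncomputable def vM (z : ℝ) (s : ℤ × ℤ) : ℂ := (z:ℂ)⁻¹ * cF s.1 (tz z s) + dF s.1 (tz z s)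
noncomputable def e0M (z : ℝ) (s : ℤ × ℤ) : ℂ := -(4 * w1) * (z:ℂ)⁻¹ * ph s.1 (tz z s)
noncomputable def e2M (z : ℝ) (s : ℤ × ℤ) : ℂ :=
  -(8 * w1) * (z:ℂ)⁻¹ * ph2 s.1 (tz z s) + 4 * Z13 * (z:ℂ) * ph s.1 (tz z s)

/-! ## Block R: the reduced form -/

/-- RS (assuming B2, B4): PROOF: take `y0 = y` in B2 (`(y:ℂ) ∈ Bd y`). For odd `c1, c2 ∈ {1,3,5}` the
class condition gives `k ≠ 0`, `s - k ≠ 0`, and `k + (s-k) = s ≠ 0`; so each term is bounded by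
`C rk(s)^{ex3 i} (pw k + pw (s-k))`, summable with sum `≤ 2C rk(s)^{ex3 i} Σ pw`. -/
def G_RS : Prop := ∀ y : ℝ, 0 < y → ∃ C : ℝ, 0 < C ∧ ∀ s : ℤ × ℤ, s ≠ 0 →
  ∀ c1 c2 : ℤ, (c1 = 1 ∨ c1 = 3 ∨ c1 = 5) → (c2 = 1 ∨ c2 = 3 ∨ c2 = 5) →
  ∀ a1 a2 : ℤ, |a1| ≤ 1 → |a2| ≤ 1 → ∀ i : ℕ, i ≤ 2 →
  Summable (fun k : ℤ × ℤ => if InCl c1 k ∧ InCl c2 (s - k) then
    PowerSeries.coeff i (XX (y:ℂ) (k, a1) (s - k, a2)) else 0) ∧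
  ‖XS c1 c2 a1 a2 i (y:ℂ) s‖ ≤ C * rk s ^ (ex3 i)

/-- RY (assuming RS, A1): symmetries. PROOF: (1)-(3): the involution `k ↦ s - k` of the index set and
`XX v u = -XX u v`; the substitution `x → -x`: `coeff i (XX (k,-a) (l,-b)) = (-1)^i coeff i (XX (k,a)
(l,b))` (`As w (k,-a) = ` series of `As w (k,a)` at `-x`, from the formula of `gser`). For (3):
`coeff 1 (XX (k,1) (l,-1)) = coeff 1 (XX (k,1) (l,0)) + coeff 1 (XX (k,0) (l,-1))`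
(`A1 = a + a²x + …`, explicit), and the second sum equals the first by the involution.
(4)-(6): also `k ↦ -k` and `XX (-v) (-u) = XX v u` (A1: `As w (-v) = -As w v`), `InCl 1 (-k) ↔
InCl 5 k`. (7): (4) applied to classes 5, 1. -/
def G_RY : Prop := ∀ y : ℝ, 0 < y → ∀ s : ℤ × ℤ, s ≠ 0 →
  XS 1 1 1 (-1) 0 (y:ℂ) s = 0 ∧ XS 1 1 1 (-1) 2 (y:ℂ) s = 0 ∧
  XS 1 1 1 (-1) 1 (y:ℂ) s = 2 * Yv (y:ℂ) s ∧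
  XS 5 5 (-1) 0 0 (y:ℂ) s = 0 ∧ XS 5 5 (-1) 0 1 (y:ℂ) s = Yv (y:ℂ) (-s) ∧
  XS 1 1 0 1 0 (y:ℂ) s = 0 ∧ XS 1 1 0 1 1 (y:ℂ) s = -Yv (y:ℂ) s ∧
  XS 5 1 0 0 0 (y:ℂ) s = Ev 0 (y:ℂ) (-s)

/-- R0: Fubini. PROOF: the bijection `(κ1,κ2,κ3) ↔ (s,κ1,κ3)`, `s = κ1+κ2`; `Summable.tsum_prod`,
`Summable.prod`, and `tsum_mul_left`, `tsum_mul_right` (no summability needed in a field). -/
def G_R0 : Prop := ∀ (c : ℤ × ℤ → ℂ) (F G : ℤ × ℤ → ℤ × ℤ → ℂ),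
  Summable (fun p : Tri => c (p.1 + p.2.1) * F (p.1 + p.2.1) p.1 * G (p.1 + p.2.1) p.2.2) →
  Summable (fun s : ℤ × ℤ => c s * (∑' k, F s k) * (∑' k, G s k)) ∧
  ∑' p : Tri, c (p.1 + p.2.1) * F (p.1 + p.2.1) p.1 * G (p.1 + p.2.1) p.2.2 =
    ∑' s : ℤ × ℤ, c s * (∑' k, F s k) * (∑' k, G s k)

/-- RA (assuming A1, B1, B2, B4, R0, RY): family A. PROOF: `v1+v2 = (s,0)`, so `As Bs = C (1/Nn y s)`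
(`gser a 0 = C a`), `coeff 2 (X12 X34) = Σ_{i+j=2} coeff i X12 · coeff j X34`; each of the three
families is summable (B2: `≤ C rk(s)^{ex3 i + ex3 j - 2}(pw κ1 + pw κ2)(pw κ3 + pw κ4)`,
`ex3 i + ex3 j ≤ -1/2` for `i + j = 2`, so `≤ C pw(s)…`, B4). Apply R0 with `F s k = if InCl 1 k ∧
InCl 1 (s-k) then coeff i (XX (k,1) (s-k,-1)) else 0`, `G s k = if InCl 1 k (∧ InCl 3 (-s-k)) then
coeff j (XX (k,1) (-s-k,-1)) else 0`, `c s = if InCl 2 s then 1/Nn y s else 0`; the class conditions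
`InCl 1 κ1, InCl 1 κ2, InCl 1 κ3` are equivalent to those of `F`, `G`, `c`. By RY only `i = j = 1`
remains: `2 Y(s)·W(s)`. -/
def G_RA : Prop := ∀ y : ℝ, 0 < y → Summable (famA (cQ (y:ℂ))) ∧
  Summable (fun s : ℤ × ℤ => if InCl 2 s then Yv (y:ℂ) s * Wv (y:ℂ) s / (Nn y s : ℂ) else 0) ∧
  ∑' p : Tri, famA (cQ (y:ℂ)) p = -(4 / 3 * (y:ℂ) ^ 3) *
    ∑' s : ℤ × ℤ, if InCl 2 s then Yv (y:ℂ) s * Wv (y:ℂ) s / (Nn y s : ℂ) else 0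

/-- RAt (assuming RA): the t-channel of family A. PROOF: `Qs v2 v3 v4 v1 = Qs v3 v2 v1 v4` (`XX` is
antisymmetric, `v2+v3 = v3+v2`), and this is the s-channel term of `p' = (κ3,κ2,κ1)`
(`k4 p' = k4 p`; the three classes are all 1): the sums agree by the bijection `p ↦ p'`. -/
def G_RAt : Prop := ∀ y : ℝ, 0 < y → Summable (famA (cQt (y:ℂ))) ∧
  ∑' p : Tri, famA (cQt (y:ℂ)) p = ∑' p : Tri, famA (cQ (y:ℂ)) p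

/-- RB (assuming A1, B1, B2, B4, R0, RY): family B, s-channel. PROOF: as RA; `v3`, `v4` have shift 0 so
`X34` is constant, `= coeff 0`; `c s = if InCl 0 s then 1/Nn y s else 0` (`= 0` for `s = 0`, as
`Nn y 0 = 0`, and `As w (0,0) = 0`); `Σ coeff 0 X34 = XS 5 1 0 0 0 (-s) = Ev 0 s`. -/
def G_RB : Prop := ∀ y : ℝ, 0 < y → Summable (famB (cQ (y:ℂ))) ∧ Summable (eB y) ∧
  ∑' p : Tri, famB (cQ (y:ℂ)) p = -(2 / 3 * (y:ℂ) ^ 3) * ∑' s : ℤ × ℤ, eB y s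

/-- RBt (assuming A1, B1, B2, B4, R0, RY): family B, t-channel. PROOF: `t = κ2+κ3 ∈ Λ4`, `v2+v3 =
(t,-1)`; `coeff 2 (X23 X41 At Bt) = Σ_{i+j+l=2} coeff i X23 coeff j X41 coeff l (At Bt)`; apply R0 in
the variables `(κ2, κ3, κ4)` (bijection of `Tri`: `(κ1,κ2,κ3) ↦ (κ2,κ3,κ4)`; `κ1 = -t-κ4`); each family
`(i,j,l)` is summable by B2 (`≤ C rk(t)^{ex3 i + ex3 j - 2 - l}…`, exponent `≤ -5/2`... for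
`(0,0,2)`: `1 - 4 = -3`, `(0,1,1)`: `0 - 3`, `(1,1,0)`: `-1-2`, `(0,2,0)`: `-1/2-2`). By RY the
factors with `i = 0` or `j = 0` vanish, and `(1,1,0)` gives `coeff 0 (At Bt) = 1/Nn y t`,
`XS 5 5 (-1) 0 1 t = Y(-t)`, `XS 1 1 0 1 1 (-t) = -Y(-t)`; put `s = -t ∈ Λ2`. -/
def G_RBt : Prop := ∀ y : ℝ, 0 < y → Summable (famB (cQt (y:ℂ))) ∧
  Summable (fun s : ℤ × ℤ => if InCl 2 s then Yv (y:ℂ) s * Yv (y:ℂ) s / (Nn y s : ℂ) else 0) ∧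
  ∑' p : Tri, famB (cQt (y:ℂ)) p = (2 / 3 * (y:ℂ) ^ 3) *
    ∑' s : ℤ × ℤ, if InCl 2 s then Yv (y:ℂ) s * Yv (y:ℂ) s / (Nn y s : ℂ) else 0

/-- RED (assuming RA, RAt, RB, RBt): the reduced form (E.1). PROOF: `q2 = cQ + cQt`, sum up. -/
def G_RED : Prop := ∀ y : ℝ, 0 < y → Summable (eA y) ∧ Summable (eB y) ∧
  PhiB (y:ℂ) = -(2 / 3 * (y:ℂ) ^ 3) * (∑' s : ℤ × ℤ, eA y s + ∑' s : ℤ × ℤ, eB y s)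

/-! ## Block C: cotangent sums -/

/-- CC: partial fractions and the cotangent. `X = 6j+c+ξ1`, `Y = m-c-6j+ξ2`, `X+Y = Δ`. PROOF:
`Σ_j (1/X + 1/Y) = Sf 1 c ξ1 + Sf 1 (m-c) ξ2` (absolutely convergent): from Mathlib
`cot_series_rep` (`π cot πτ = 1/τ + Σ_{n≥1} (1/(τ-n)+1/(τ+n))`) with `τ = (c+ξ1)/6` and
`(m-c+ξ2)/6`; e.g. show that the symmetric partial sums `|j| ≤ J` converge to the right side and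
that the series is summable. Then `1/(XY) = (1/X+1/Y)/Δ`, `1/(X²Y) = (1/X²)/Δ + (1/X+1/Y)/Δ²`,
`1/(X³Y)+1/(X²Y²)+1/(XY³) = (X⁻³+Y⁻³)/Δ + 2(X⁻²+Y⁻²)/Δ² + 4(X⁻¹+Y⁻¹)/Δ³`; and
`Σ_j Y^{-r} = Sf r (m-c) ξ2` by `j → -j`. Second part: `Y = -X`. -/
def G_CC : Prop := ∀ (c m : ℤ) (ξ1 ξ2 : ℂ), (∀ j : ℤ, 6 * (j:ℂ) + (c:ℂ) + ξ1 ≠ 0) →
  (∀ j : ℤ, (m:ℂ) - (c:ℂ) - 6 * (j:ℂ) + ξ2 ≠ 0) →
  ((m:ℂ) + ξ1 + ξ2 ≠ 0 →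
    HasSum (fun j : ℤ => 1 / ((6 * (j:ℂ) + c + ξ1) * ((m:ℂ) - c - 6 * j + ξ2)))
      ((Sf 1 c ξ1 + Sf 1 (m - c) ξ2) / ((m:ℂ) + ξ1 + ξ2)) ∧
    HasSum (fun j : ℤ => 1 / ((6 * (j:ℂ) + c + ξ1) ^ 2 * ((m:ℂ) - c - 6 * j + ξ2)))
      (Sf 2 c ξ1 / ((m:ℂ) + ξ1 + ξ2) +
        (Sf 1 c ξ1 + Sf 1 (m - c) ξ2) / ((m:ℂ) + ξ1 + ξ2) ^ 2) ∧
    HasSum (fun j : ℤ => 1 / ((6 * (j:ℂ) + c + ξ1) * ((m:ℂ) - c - 6 * j + ξ2) ^ 2))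
      (Sf 2 (m - c) ξ2 / ((m:ℂ) + ξ1 + ξ2) +
        (Sf 1 c ξ1 + Sf 1 (m - c) ξ2) / ((m:ℂ) + ξ1 + ξ2) ^ 2) ∧
    HasSum (fun j : ℤ => 1 / ((6 * (j:ℂ) + c + ξ1) ^ 3 * ((m:ℂ) - c - 6 * j + ξ2)) +
        1 / ((6 * (j:ℂ) + c + ξ1) ^ 2 * ((m:ℂ) - c - 6 * j + ξ2) ^ 2) +
        1 / ((6 * (j:ℂ) + c + ξ1) * ((m:ℂ) - c - 6 * j + ξ2) ^ 3))
      ((Sf 3 c ξ1 + Sf 3 (m - c) ξ2) / ((m:ℂ) + ξ1 + ξ2) +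
        2 * (Sf 2 c ξ1 + Sf 2 (m - c) ξ2) / ((m:ℂ) + ξ1 + ξ2) ^ 2 +
        4 * (Sf 1 c ξ1 + Sf 1 (m - c) ξ2) / ((m:ℂ) + ξ1 + ξ2) ^ 3)) ∧
  ((m:ℂ) + ξ1 + ξ2 = 0 →
    HasSum (fun j : ℤ => 1 / ((6 * (j:ℂ) + c + ξ1) * ((m:ℂ) - c - 6 * j + ξ2)))
      (-Sf 2 c ξ1) ∧
    HasSum (fun j : ℤ => 1 / ((6 * (j:ℂ) + c + ξ1) ^ 3 * ((m:ℂ) - c - 6 * j + ξ2)) +
        1 / ((6 * (j:ℂ) + c + ξ1) ^ 2 * ((m:ℂ) - c - 6 * j + ξ2) ^ 2) +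
        1 / ((6 * (j:ℂ) + c + ξ1) * ((m:ℂ) - c - 6 * j + ξ2) ^ 3)) (-Sf 4 c ξ1))

/-- CE: size of `S_r` off the real line. PROOF: `r = 1`: `cot ζ = i(e^{2iζ}+1)/(e^{2iζ}-1)`, so
`cot ζ - i = 2i/(e^{2iζ}-1)` and `cot ζ + i = 2i e^{2iζ}/(e^{2iζ}-1)`; for `ξ = ∓iT`, `|e^{2iζ}| =
e^{±πT/3}`. `r = 2,3,4`: Lipschitz formula (Mathlib `EisensteinSeries.qExpansion_identity`):
`Σ_j (j+τ)^{-r} = ((-2πi)^r/(r-1)!) Σ_{d≥1} d^{r-1} e^{2πidτ}` for `Im τ > 0`, `τ = (c+ξ)/6`, so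
`|Sf r c ξ| ≤ C Σ d^{3} e^{-πdT/3} ≤ C' e^{-πT/3}`, `T ≥ 1`; for `Im τ < 0` conjugate (or
`j → -j`, `τ → -τ`). Finally `π/3 > 1`. -/
def G_CE : Prop := ∃ C : ℝ, 0 < C ∧ ∀ (c : ℤ) (T : ℝ), 1 ≤ T →
  ‖Sf 1 c (-(Complex.I * T)) - Complex.I * (Real.pi / 6)‖ ≤ C * Real.exp (-T) ∧
  ‖Sf 1 c (Complex.I * T) + Complex.I * (Real.pi / 6)‖ ≤ C * Real.exp (-T) ∧
  ∀ r : ℕ, 2 ≤ r → r ≤ 4 →
    ‖Sf r c (-(Complex.I * T))‖ ≤ C * Real.exp (-T) ∧ ‖Sf r c (Complex.I * T)‖ ≤ C * Real.exp (-T)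

/-- CV: values at `ξ = 0`. PROOF: `r = 1`: `cot(π/6) = √3`, `cot(π/2) = 0`, `cot(5π/6) = -√3`,
`cot(π/3) = 1/√3`. `r = 2, 3`: `Σ_j (j+a)^{-2} = π²/sin²(πa)`, `Σ_j (j+a)^{-3} =
π³cos(πa)/sin³(πa)` at `a = 1/6, 1/2, 5/6` (derivatives of the cotangent series, or Mathlib's
`hasSum_one_div_nat_pow_mul_cos`, `_sin` (Bernoulli polynomials), or the Euler product of the
known value `ζ(2)`: `Σ_{m≡1(6)} m⁻² = Σ_{m≥1, (m,6)=1} m⁻² = ζ(2)(1-1/4)(1-1/9) = π²/9`,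
`Σ_{m≡3(6)} m⁻² = 2·(1/9)·Σ_{odd≥1} m⁻²  = π²/36`). For `r = 3` you may use
`EC237.PF.G_Z3` (Pool/Agent/Helper80/EC_F/Goals.lean, proved by some seat: ask helper80) and
`j → -1-j` for `c = 5`. -/
def G_CV : Prop := Sf 1 1 0 = (w1:ℂ) ∧ Sf 1 3 0 = 0 ∧ Sf 1 5 0 = -(w1:ℂ) ∧
  Sf 1 2 0 = ((Real.pi / (6 * Real.sqrt 3) : ℝ) : ℂ) ∧
  Sf 2 1 0 = ((Real.pi ^ 2 / 9 : ℝ) : ℂ) ∧ Sf 2 3 0 = ((Real.pi ^ 2 / 36 : ℝ) : ℂ) ∧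
  Sf 2 5 0 = ((Real.pi ^ 2 / 9 : ℝ) : ℂ) ∧ Sf 3 1 0 = (Z13:ℂ) ∧ Sf 3 5 0 = -(Z13:ℂ)

/-! ## Block N: the sums over `n` -/

/-- NX: coefficients of `XX` at `w = 1/z`. PROOF: `KA (z⁻¹) k = i z⁻¹ Xz z k`, `KB (z⁻¹) k =
-i z⁻¹ Yz z k`; so `a = -iz/X`, `b = iz/Y`; `As = a + α a² x + α² a³ x² + …`; expand. -/
def G_NX : Prop := ∀ z : ℝ, 0 < z → ∀ k l : ℤ × ℤ, k ≠ 0 → l ≠ 0 →
  PowerSeries.coeff 1 (XX ((z⁻¹:ℝ):ℂ) (k, 1) (l, 0)) =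
    -(Complex.I * z ^ 3) * (1 / (Xz z k ^ 2 * Yz z l) + 1 / (Yz z k ^ 2 * Xz z l)) ∧
  PowerSeries.coeff 1 (XX ((z⁻¹:ℝ):ℂ) (k, 1) (l, -1)) =
    -(Complex.I * z ^ 3) * ((1 / (Xz z k ^ 2 * Yz z l) + 1 / (Xz z k * Yz z l ^ 2)) +
      (1 / (Yz z k ^ 2 * Xz z l) + 1 / (Yz z k * Xz z l ^ 2))) ∧
  PowerSeries.coeff 0 (XX ((z⁻¹:ℝ):ℂ) (k, 1) (l, -1)) =
    (z:ℂ) ^ 2 * (1 / (Xz z k * Yz z l) - 1 / (Yz z k * Xz z l)) ∧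
  PowerSeries.coeff 2 (XX ((z⁻¹:ℝ):ℂ) (k, 1) (l, -1)) =
    -(z:ℂ) ^ 4 * ((1 / (Xz z k ^ 3 * Yz z l) + 1 / (Xz z k ^ 2 * Yz z l ^ 2) +
      1 / (Xz z k * Yz z l ^ 3)) - (1 / (Yz z k ^ 3 * Xz z l) +
      1 / (Yz z k ^ 2 * Xz z l ^ 2) + 1 / (Yz z k * Xz z l ^ 3)))

/-- NS (assuming RS, CC, NX): iterated sums. PROOF: by RS (with `y = z⁻¹`) the sum over `κ = (n,m1)` is
absolutely convergent, so it is the sum over `n` of the sums over `m1`, `m1 = 6j + c1 - 3n` (class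
condition `InCl c1 κ`; `InCl c2 (s-κ)` is then automatic as `InCl (c1+c2) s`), and the inner sums are
given by CC with `c = c1 - 3n`, `m = s.2`, `ξ1 = -inz`, `ξ2 = i(s.1-n)z` (the class `m - c` is
congruent to `c2 - 3(s.1-n)` modulo 6, and `Sf r` depends only on the class modulo 6:
periodicity of `cot`, and `j → j+1`), and the conjugate series. Nonvanishing: `6j+c-inz = 0` would
force `n = 0` and `m1 = 0`, impossible for odd classes `c1 ∈ {1,3,5}`, same for the second. -/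
def G_NS : Prop := ∀ z : ℝ, 0 < z → ∀ s : ℤ × ℤ,
  (InCl 2 s → HasSum (fun n : ℤ => -(Complex.I * z ^ 3) * (PY z s n + star (PY z s n)))
    (Yv ((z⁻¹:ℝ):ℂ) s)) ∧
  (InCl 2 s → HasSum (fun n : ℤ => -(Complex.I * z ^ 3) * (PW z (-s) n + star (PW z (-s) n)))
    (Wv ((z⁻¹:ℝ):ℂ) s)) ∧
  (InCl 0 s → s ≠ 0 → HasSum (fun n : ℤ => (z:ℂ) ^ 2 * (P0 z s n - star (P0 z s n)))
    (Ev 0 ((z⁻¹:ℝ):ℂ) s)) ∧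
  (InCl 0 s → s ≠ 0 → HasSum (fun n : ℤ => -(z:ℂ) ^ 4 * (P2 z s n - star (P2 z s n)))
    (Ev 2 ((z⁻¹:ℝ):ℂ) s))

/-- ERR: summation of the errors. PROOF: `‖Δ‖ ≥ |s.2|`, `‖Δ‖ ≥ |s.1-2n| z ≥ |s.1-2n|`, so
`rk s ≤ |s.1|+|s.2| ≤ |s.2| + |s.1-2n| + 2|n| ≤ 2 max(1,‖Δ‖)(1+|n|)`, and (replace `n` by `s.1-n`)
`rk s ≤ 2 max(1,‖Δ‖)(1+|s.1-n|)`. So the sum is `≤ M·2·Σ_{n≠0} 2(1+|n|)e^{-|n|z}/rk s ≤ C M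
e^{-z}/rk s` (`|n|z ≥ z + (|n|-1)`). -/
def G_ERR : Prop := ∃ C : ℝ, 0 < C ∧ ∀ z : ℝ, 1 ≤ z → ∀ s : ℤ × ℤ, s ≠ 0 → ∀ (M : ℝ) (δ : ℤ → ℂ),
  0 ≤ M → (∀ n : ℤ, ‖δ n‖ ≤ M * ((if n = 0 then 0 else Real.exp (-(|(n:ℝ)| * z))) +
    (if s.1 - n = 0 then 0 else Real.exp (-(|((s.1 - n : ℤ):ℝ)| * z)))) / max 1 ‖Dz z s n‖) →
  Summable δ ∧ ‖∑' n : ℤ, δ n‖ ≤ C * M * Real.exp (-z) / rk s

/-- EY (assuming CE, CV, NS, ERR): PROOF: `PY - MY'` satisfies the hypothesis of ERR: `‖Δ‖ ≥ |s.2| ≥ 1`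
(`InCl 2 s` forces `s.2 ≠ 0`), and by CE (`T = |n|z`) and CV (`n = 0`; the class `c - 3n` for `n = 0`
is `c`) `‖Sa 1 1 z n - la w1 n‖, ‖Sb 1 1 z n - lb w1 n‖, ‖Sa 2 1 z n - l0 (π²/9) n‖ ≤
C [n≠0] e^{-|n|z}`. So the sum of the main parts converges too, and the difference of the sums is
`≤ 2 z³ C' e^{-z}/rk s ≤ C'' e^{-z/2}/rk s`. Same for `W` (at `-s`; `rk (-s) = rk s`;
`Sb 2 3 z n → l0 (π²/36)`, `Sb 1 3 z n → lb 0`). -/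
def G_EY : Prop := ∃ C : ℝ, 0 < C ∧ ∀ z : ℝ, 1 ≤ z → ∀ s : ℤ × ℤ, InCl 2 s →
  Summable (fun n : ℤ => -(Complex.I * z ^ 3) * (MY' z s n + star (MY' z s n))) ∧
  ‖Yv ((z⁻¹:ℝ):ℂ) s - ∑' n : ℤ, -(Complex.I * z ^ 3) * (MY' z s n + star (MY' z s n))‖ ≤
    C * Real.exp (-(z / 2)) / rk s ∧
  Summable (fun n : ℤ => -(Complex.I * z ^ 3) * (MW' z (-s) n + star (MW' z (-s) n))) ∧
  ‖Wv ((z⁻¹:ℝ):ℂ) s - ∑' n : ℤ, -(Complex.I * z ^ 3) * (MW' z (-s) n + star (MW' z (-s) n))‖ ≤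
    C * Real.exp (-(z / 2)) / rk s

/-- EE (assuming CE, CV, NS, ERR): PROOF: as EY. If `Δ = 0` then `s.2 = 0`, `s.1 = 2n`, so `n ≠ 0`
(`s ≠ 0`), the main part is `0` and `‖P0‖ = ‖Sa 2 1 z n‖`, `‖P2‖ = ‖Sa 4 1 z n‖ ≤ C e^{-|n|z}`. If
`Δ ≠ 0` then `‖Δ‖ ≥ 1` (`|s.2| ≥ 1` or `|s.1-2n| z ≥ 1`). Limits: `Sb 1 5 → lb (-w1)`, `Sb 2 5 →
l0 (π²/9)`, `Sa 3 1 → l0 Z13`, `Sb 3 5 → l0 (-Z13)`. -/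
def G_EE : Prop := ∃ C : ℝ, 0 < C ∧ ∀ z : ℝ, 1 ≤ z → ∀ s : ℤ × ℤ, InCl 0 s → s ≠ 0 →
  Summable (fun n : ℤ => (z:ℂ) ^ 2 * (M0' z s n - star (M0' z s n))) ∧
  ‖Ev 0 ((z⁻¹:ℝ):ℂ) s - ∑' n : ℤ, (z:ℂ) ^ 2 * (M0' z s n - star (M0' z s n))‖ ≤
    C * Real.exp (-(z / 2)) / rk s ∧
  Summable (fun n : ℤ => -(z:ℂ) ^ 4 * (M2' z s n - star (M2' z s n))) ∧
  ‖Ev 2 ((z⁻¹:ℝ):ℂ) s - ∑' n : ℤ, -(z:ℂ) ^ 4 * (M2' z s n - star (M2' z s n))‖ ≤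
    C * Real.exp (-(z / 2)) / rk s

/-- FY: the main sums for `Y` and `W`. PROOF: `s = (k,m)`, `B = k - 2n = n2 - n1`, `u0 = π/6`.
`Re(1/(m+iBz)²) = (m²-B²z²)/(m²+B²z²)²`, `Re(i/(m+iBz)²) = 2mBz/(m²+B²z²)²`, so the term is
`-2iz³ { [n=0] (π²/9) m/(m²+k²z²) + u0 (sgn n - sgn(k-n)) 2mBz/(m²+B²z²)² + w1([n=0] + [n=k])
(m²-B²z²)/(m²+B²z²)² }`. Sum over `n` of the middle part: substitute `B` (`B ≡ k mod 2`):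
`sgn n - sgn(k-n) = -2 sgn B` if `|B| > |k|`, `-sgn B` if `|B| = |k|`, `0` if `|B| < |k|`; the summand
is even in `B`; so it is `-4u0·Σ''_{A ≥ |k|} 2mAz/(m²+A²z²)²` with `A = |k| + 2j`, weight `w0 j`.
With `t = m/z`, `m²+A²z² = z²(t²+A²)`: total `-2iz³{(π²/9) z⁻¹ mu0 - (4π/3) z⁻² τ_k(t) + 2 w1 z⁻²
ph1}` `= i z² yM`. For `W` at `(-k,-m)`: `-2iz³{(π²/9+π²/36) z⁻¹ mu0(k,-t) - 2·(4π/3) z⁻² τ_k(-t) +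
2 w1 z⁻² ph1}` (only `n = 0` has `w1`, times 2), `mu0`, `τ` are odd in `t`; subtract. -/
def G_FY : Prop := ∀ z : ℝ, 0 < z → ∀ s : ℤ × ℤ, s.2 ≠ 0 →
  ∑' n : ℤ, -(Complex.I * z ^ 3) * (MY' z s n + star (MY' z s n)) = Complex.I * z ^ 2 * yM z s ∧
  ∑' n : ℤ, -(Complex.I * z ^ 3) * (MW' z (-s) n + star (MW' z (-s) n)) -
    ∑' n : ℤ, -(Complex.I * z ^ 3) * (MY' z s n + star (MY' z s n)) = Complex.I * z ^ 2 * vM z s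

/-- FE: the main sums for `E_0`, `E_2`. PROOF: `P - P̄ = 2i Im P`. The part with `u0`:
`u0(sgn n - sgn(k-n))·Im(i/(m+iBz)^r)`, `r = 1, 3`: under `n → k-n` (`B → -B`, `Δ → Δ̄`) the first
factor changes sign and `Im(i Δ^{-r}) = Re(Δ^{-r})` does not: the sum (absolutely convergent) is 0.
The rest: only `n = 0` (`Δ = m+ikz`) and `n = k` (`Δ̄`):
`E_0`: `z²·2i Im(w1/Δ - w1/Δ̄) = -4i w1 z² k z/(m²+k²z²) = i z² e0M`.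
`E_2`: `-z⁴·2i Im[Z13(1/Δ - 1/Δ̄) + 2(π²/9)(1/Δ²+1/Δ̄²) + 4w1(1/Δ³ - 1/Δ̄³)]`, the middle is real,
`Im(1/Δ) = -kz/(m²+k²z²)`, `Im(1/Δ³) = -(3m²kz - k³z³)/(m²+k²z²)³`; in `t = m/z`:
`= -2i z⁴ [-2 Z13 z⁻¹ ph + 4 w1 z⁻³ ph2]`: `i z²(4 Z13 z ph - 8 w1 z⁻¹ ph2) = i z² e2M`
(`ph2 = (2k³-6kt²)/(t²+k²)³`). If `k = 0` both sides are `0`. -/
def G_FE : Prop := ∀ z : ℝ, 0 < z → ∀ s : ℤ × ℤ, s ≠ 0 →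
  Summable (fun n : ℤ => (z:ℂ) ^ 2 * (M0' z s n - star (M0' z s n))) →
  Summable (fun n : ℤ => -(z:ℂ) ^ 4 * (M2' z s n - star (M2' z s n))) →
  ∑' n : ℤ, (z:ℂ) ^ 2 * (M0' z s n - star (M0' z s n)) = Complex.I * z ^ 2 * e0M z s ∧
  ∑' n : ℤ, -(z:ℂ) ^ 4 * (M2' z s n - star (M2' z s n)) = Complex.I * z ^ 2 * e2M z s

end EC237.ZE
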