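import Pool.Agent.Helper7.EC_E.GoalsR

/-!
# MP_ecc237_nt, PART E, blocks S (strip lemma), K (sums over `m` and `k`), final step
-/

set_option autoImplicit false

open MeasureTheory Filter Topology Set

namespace EC237.ZE

/-! ## Definitions -/

noncomputable def F1 (k : ℤ) (t : ℂ) : ℂ := aF k t * cF k t / (t ^ 2 + (k:ℂ) ^ 2)
noncomputable def F2 (k : ℤ) (t : ℂ) : ℂ :=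
  (aF k t * dF k t + bF k t * cF k t) / (t ^ 2 + (k:ℂ) ^ 2)
noncomputable def F3 (k : ℤ) (t : ℂ) : ℂ := bF k t * dF k t / (t ^ 2 + (k:ℂ) ^ 2)
noncomputable def F4 (k : ℤ) (t : ℂ) : ℂ := ph k t * ph2 k t / (t ^ 2 + (k:ℂ) ^ 2)
noncomputable def F5 (k : ℤ) (t : ℂ) : ℂ := ph k t ^ 2 / (t ^ 2 + (k:ℂ) ^ 2)

noncomputable def J1 (k : ℤ) : ℂ := ∫ t : ℝ, F1 k (t:ℂ)
noncomputable def J2 (k : ℤ) : ℂ := ∫ t : ℝ, F2 k (t:ℂ)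
noncomputable def J3 (k : ℤ) : ℂ := ∫ t : ℝ, F3 k (t:ℂ)
noncomputable def J4 (k : ℤ) : ℂ := ∫ t : ℝ, F4 k (t:ℂ)
noncomputable def J5 (k : ℤ) : ℂ := ∫ t : ℝ, F5 k (t:ℂ)

/-- `|μ_s|² = m² + k²z²`. -/
noncomputable def Nz (z : ℝ) (s : ℤ × ℤ) : ℝ := (s.2:ℝ) ^ 2 + (s.1:ℝ) ^ 2 * z ^ 2

/-- main term of the first sum -/
noncomputable def tA (z : ℝ) (s : ℤ × ℤ) : ℂ :=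
  if InCl 2 s then 2 / 3 * (z:ℂ) ^ 3 * (yM z s * vM z s) / (Nz z s : ℂ) else 0

/-- main term of the second sum -/
noncomputable def tB (z : ℝ) (s : ℤ × ℤ) : ℂ :=
  if InCl 0 s then 2 / 3 * (z:ℂ) ^ 3 * (e0M z s * e2M z s) / (Nz z s : ℂ) else 0

/-- `A = 2(j+1)`. -/
noncomputable def Aj (j : ℕ) : ℂ := 2 * ((j:ℂ) + 1)

/-- `ĝ(t) = Σ_{A=2,4,…} A/(t²+A²)²`. -/
noncomputable def gh (t : ℂ) : ℂ := ∑' j : ℕ, Aj j / (t ^ 2 + Aj j ^ 2) ^ 2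

/-- `(ĝ(t)-ĝ(0))/t²`. -/
noncomputable def g2 (t : ℂ) : ℂ :=
  -∑' j : ℕ, (t ^ 2 + 2 * Aj j ^ 2) / (Aj j ^ 3 * (t ^ 2 + Aj j ^ 2) ^ 2)

/-- `(g2(t) - g2(0)/(1+t²))/t`. -/
noncomputable def g3 (t : ℂ) : ℂ :=
  ∑' j : ℕ, t * (3 * Aj j ^ 2 - 2 * Aj j ^ 4 + (2 - Aj j ^ 2) * t ^ 2) /
    (Aj j ^ 5 * (t ^ 2 + Aj j ^ 2) ^ 2 * (1 + t ^ 2))

/-- `Σ_{m ≡ 2 (6)} m^{-r}`. -/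
noncomputable def Z2 (r : ℕ) : ℂ := ∑' j : ℤ, 1 / (6 * (j:ℂ) + 2) ^ r

/-! ## Packets -/

/-- ST: strip lemma. PROOF: Poisson summation (Mathlib `Real.tsum_eq_tsum_fourier_of_rpow_decay` or
the version with `𝓕`) for `f(x) = F((6x+c)/z)`: `f` is continuous, `|f(x)| ≤ M/(1+((6x+c)/z)²)`;
`𝓕f(n) = ∫F((6x+c)/z)e^{-2πinx}dx = (z/6)e^{2πinc/6}∫_R F(t)e^{-2πinzt/6}dt`, for `n ≠ 0` shift the line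
of integration to `Im t = -sgn(n)/2` (Cauchy on rectangles,
`Complex.integral_boundary_rect_eq_zero_of_differentiableOn`, the vertical sides tend to 0 because
`|F| ≤ M/(1+R²)`): `|𝓕f(n)| ≤ (z/6)·e^{-π|n|z/6}·Mπ`; `𝓕f(0) = (z/6)∫F`. The same bound with real
`ξ` instead of `n` gives the decay of `𝓕f` required by Poisson. Sum over `n ≠ 0`:
`≤ C M z e^{-πz/6} ≤ C' M e^{-z/4}`, `z ≥ 1` (`π/6 > 1/2`). -/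
def G_ST : Prop := ∃ C : ℝ, 0 < C ∧ ∀ (F : ℂ → ℂ) (M : ℝ), 0 ≤ M →
  DifferentiableOn ℂ F {t : ℂ | |t.im| < 1} →
  (∀ t : ℂ, |t.im| ≤ 1 / 2 → ‖F t‖ ≤ M / (1 + t.re ^ 2)) → ∀ z : ℝ, 1 ≤ z → ∀ c : ℤ,
  Summable (fun j : ℤ => F ((6 * (j:ℂ) + c) / z)) ∧
  ‖∑' j : ℤ, F ((6 * (j:ℂ) + c) / z) - z / 6 * ∫ t : ℝ, F (t:ℂ)‖ ≤ C * M * Real.exp (-(z / 4))

/-- FB: the functions of block K for `k ≠ 0`. PROOF: let `t = x+iη`, `|η| ≤ 1/2`, `A ≥ 1`: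
`|t²+A²| ≥ x²+A²-η² ≥ (3/4)(x²+A²)`, `|t|² ≤ x²+1/4`. With `r² = x²+k²`: `|mu0|, |ph| ≤ C/r`,
`|ph1| ≤ C/r²`, `|ph2| ≤ C/r³`, and `|τ_k| ≤ 2r·Σ_j (16/9)A/(x²+A²)² ≤ C r Σ_j (x²+A²)^{-3/2}`,
`A = |k|+2j`, `x²+A² ≥ r²+4j² ≥ (r+2j)²/2`, `Σ_j (r+2j)^{-3} ≤ C r^{-2}`: `|τ_k| ≤ C/r`. So each
function is `≤ C/r⁴ ≤ C/(k²(1+x²))`. Holomorphic for `|Im t| < 1`: rational functions with poles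
at `±iA`, `A ≥ |k| ≥ 1`, and `tauc` is a locally uniform limit
(`differentiableOn_tsum_of_summable_norm` on bounded open subsets of `|Im t| < 1`:
`|t²+A²| ≥ A²-|t|²…`; on `{|Im t| < 1-ε}` use `Re(t²+A²) ≥ x²+A²-η²`). -/
def G_FB : Prop := ∃ C : ℝ, 0 < C ∧ ∀ k : ℤ, k ≠ 0 →
  ∀ F ∈ ({F1 k, F2 k, F3 k, F4 k, F5 k} : Set (ℂ → ℂ)),
  DifferentiableOn ℂ F {t : ℂ | |t.im| < 1} ∧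
  ∀ t : ℂ, |t.im| ≤ 1 / 2 → ‖F t‖ ≤ C / (k:ℝ) ^ 2 / (1 + t.re ^ 2)

/-- KS (assuming ST, FB): the sums over `m` for `k ≠ 0`. PROOF: `InCl 2 (k,m)` iff `m = 6j+2-3k`; with
`t = m/z`, `Nz = z²(t²+k²)`: `tA = (2/3)(z⁻¹F1 + F2 + zF3)(t)`, `tB = (2/3)(32w1²z⁻¹F4 -
16w1Z13 z F5)(t)`, `m = 6j-3k`. Apply ST. `|J| ≤ ∫ C/k²/(1+t²)`. -/
def G_KS : Prop := ∃ C : ℝ, 0 < C ∧ ∀ k : ℤ, k ≠ 0 →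
  (‖J1 k‖ ≤ C / (k:ℝ) ^ 2 ∧ ‖J2 k‖ ≤ C / (k:ℝ) ^ 2 ∧ ‖J3 k‖ ≤ C / (k:ℝ) ^ 2 ∧
    ‖J4 k‖ ≤ C / (k:ℝ) ^ 2 ∧ ‖J5 k‖ ≤ C / (k:ℝ) ^ 2) ∧
  ∀ z : ℝ, 1 ≤ z →
    ‖∑' m : ℤ, tA z (k, m) - 1 / 9 * (J1 k + z * J2 k + z ^ 2 * J3 k)‖ ≤
      C * z * Real.exp (-(z / 4)) / (k:ℝ) ^ 2 ∧
    ‖∑' m : ℤ, tB z (k, m) - 1 / 9 * (32 * w1 ^ 2 * J4 k - 16 * w1 * Z13 * z ^ 2 * J5 k)‖ ≤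
      C * z * Real.exp (-(z / 4)) / (k:ℝ) ^ 2

/-- JV (assuming MP): values. PROOF: `F1 k = (-(64π²/3)τ² + 32πw1 τ ph1)/(t²+k²)`; the second part is odd
in `t`, its integral is 0 (integrable: FB-type bounds, or: the integral of an odd function is 0
anyway, `integral_neg_eq_self`; integrability of each part is needed to split the integral: both
parts are continuous and `O((1+t²)^{-1})`). `tauc k (t:ℂ) = (taur k t : ℂ)`. `F4 k =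
k²(2k²-6t²)/(t²+k²)⁵`. -/
def G_JV : Prop := ∀ k : ℤ, k ≠ 0 →
  J1 k = ((-(64 * Real.pi ^ 2 / 3) * ∫ t : ℝ, taur k t ^ 2 / (t ^ 2 + (k:ℝ) ^ 2) : ℝ) : ℂ) ∧
  J4 k = ((5 * Real.pi / 16 / |(k:ℝ)| ^ 5 : ℝ) : ℂ)

/-- K0F: the functions of the case `k = 0`. PROOF: bounds as in FB (`A ≥ 2`): `|gh| ≤ C/(1+x²)`,
`|g2| ≤ C Σ A⁻³/(x²+A²)`, `|g3| ≤ C Σ A⁻³/(1+x²)`; identities termwise: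
`1/(t²+A²)² - 1/A⁴ = -t²(t²+2A²)/(A⁴(t²+A²)²)`;
`-(t²+2A²)/(A³(t²+A²)²) + 2/(A⁵(1+t²)) = t·t(3A²-2A⁴+(2-A²)t²)/(A⁵(t²+A²)²(1+t²))`, and
`g2 0 = -Σ 2/A⁵ = -ζ(5)/16`; `tauc 0 t = t·gh t` (the term `j = 0` has `A = 0`, so it is 0;
shift `j` by one, `w0 (j+1) = 1`). -/
def G_K0F : Prop := ∃ C : ℝ, 0 < C ∧
  (∀ F ∈ ({fun t => gh t ^ 2, g2, g3} : Set (ℂ → ℂ)),
    DifferentiableOn ℂ F {t : ℂ | |t.im| < 1} ∧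
    ∀ t : ℂ, |t.im| ≤ 1 / 2 → ‖F t‖ ≤ C / (1 + t.re ^ 2)) ∧
  (∀ t : ℝ, gh (t:ℂ) = gh 0 + (t:ℂ) ^ 2 * g2 (t:ℂ)) ∧
  (∀ t : ℝ, g2 (t:ℂ) = g2 0 / (1 + (t:ℂ) ^ 2) + (t:ℂ) * g3 (t:ℂ)) ∧
  g2 0 = ((-(zeta5 / 16) : ℝ) : ℂ) ∧ (∀ t : ℝ, g3 (-(t:ℂ)) = -g3 (t:ℂ)) ∧
  (∀ t : ℝ, tauc 0 (t:ℂ) = (t:ℂ) * gh (t:ℂ)) ∧
  ∫ t : ℝ, gh (t:ℂ) ^ 2 = ((∫ t : ℝ, taur 0 t ^ 2 / (t ^ 2 + ((0:ℤ):ℝ) ^ 2) : ℝ) : ℂ)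

/-- K0C (assuming CC, CE, CV): PROOF: `t = m/z`: `1/(t(1+t²)) = z(1/m - m/(m²+z²))` and
`1/m - m/(m²+z²) = (1/2)((1/m - 1/(m+iz)) + (1/m - 1/(m-iz)))`; CC (first part, with
`X = 6j+2`, `Y = iz-6j-2`… i.e. `1/X + 1/Y`, `Y = -(m - iz)`) gives `Σ_{m≡2} (1/m - 1/(m±iz)) =
Sf 1 2 0 - Sf 1 2 (±iz)`; the mean of `Sf 1 2 (iz)` and `Sf 1 2 (-iz)` is `O(e^{-z})` by CE. -/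
def G_K0C : Prop := Tendsto (fun z : ℝ => (z:ℂ)⁻¹ * ∑' j : ℤ,
    1 / ((6 * (j:ℂ) + 2) / z * (1 + ((6 * (j:ℂ) + 2) / z) ^ 2))) atTop
    (𝓝 ((Real.pi / (6 * Real.sqrt 3) : ℝ) : ℂ)) ∧
  ∀ z : ℝ, 1 ≤ z → Summable (fun j : ℤ =>
    1 / ((6 * (j:ℂ) + 2) / z * (1 + ((6 * (j:ℂ) + 2) / z) ^ 2)))

/-- K0 (assuming ST, K0F, K0C): the part `k = 0`. PROOF: for `s = (0,m)`, `m ≡ 2 (6)`, `t = m/z`: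
`tA = (2/3)[z⁻¹(-(64π²/3) ĝ² + 32πw1 ĝ/t³) + (28π³/9) ĝ/t² - 2π²w1/t⁵ - (π⁴/9) z/t⁴]`
(`a = (8π/3)tĝ - 4w1/t²`, `b = -(2π²/9)/t`, `c = -8πtĝ`, `d = (π²/2)/t`, divided by `t²`). Sum over
`m = 6j+2`: `ĝ²`: ST, `z⁻¹·((z/6)∫ĝ² + o(1))`; `ĝ/t² = ĝ(0)/t² + g2`: `z²ĝ(0)Z2 2 + (z/6)∫g2 + o(1)`;
`z⁻¹ĝ/t³ = z⁻¹(ĝ(0)/t³ + g2(0)/(t(1+t²)) + g3)`: `z²ĝ(0)Z2 3 + g2(0)·(K0C) + o(1)` (`∫g3 = 0`, odd);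
`1/t⁵`: `z⁵ Z2 5`; `z/t⁴`: `z⁵ Z2 4`. -/
def G_K0 : Prop := ∃ c1 c2 c5 : ℂ, Tendsto (fun z : ℝ => ∑' m : ℤ, tA z (0, m) -
    (c1 * z + c2 * (z:ℂ) ^ 2 + c5 * (z:ℂ) ^ 5)) atTop
    (𝓝 ((2 / 3 * (1 / 6 * (-(64 * Real.pi ^ 2 / 3)) *
      (∫ t : ℝ, taur 0 t ^ 2 / (t ^ 2 + ((0:ℤ):ℝ) ^ 2)) -
      2 * Real.pi * w1 * (Real.pi / (6 * Real.sqrt 3)) * zeta5) : ℝ) : ℂ)) ∧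
  ∀ z : ℝ, ∀ m : ℤ, tB z (0, m) = 0

/-- MBD: size of the main terms. PROOF: `μ² := m²+k²z² ≥ rk(s)² ≥ 1` (`z ≥ 1`), `t = m/z`,
`t²+A² = (m²+A²z²)/z²`. `z⁻¹|t|A/(t²+A²)² = z(|m|·Az)/(m²+A²z²)² ≤ (z/2)/(m²+A²z²) ≤
(z/2) μ^{-1/2}(Az)^{-3/2}` for `A ≥ |k|`, `A > 0`; sum over `A`: `z⁻¹|τ| ≤ C z rk^{-1/2}`;
`z⁻¹|ph1| ≤ z/μ²`, `|mu0| ≤ z/μ`, `z⁻¹|ph| ≤ 1/μ`, `z|ph| ≤ z²/μ`, `z⁻¹|ph2| ≤ 6z²/μ³`; and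
`μ^{-j} ≤ rk^{-1/2}`. -/
def G_MBD : Prop := ∃ C : ℝ, 0 < C ∧ ∀ z : ℝ, 1 ≤ z → ∀ s : ℤ × ℤ,
  (s.2 ≠ 0 → ‖yM z s‖ ≤ C * z * rk s ^ (-(1 / 2) : ℝ) ∧ ‖vM z s‖ ≤ C * z * rk s ^ (-(1 / 2) : ℝ)) ∧
  (s ≠ 0 → ‖e0M z s‖ ≤ C * z ^ 2 * rk s ^ (-(1 / 2) : ℝ) ∧
    ‖e2M z s‖ ≤ C * z ^ 2 * rk s ^ (-(1 / 2) : ℝ))

/-- ASM (assuming RED, EY, EE, FY, FE, MBD, B4): main terms only. PROOF: `y = 1/z`: `Nn y s = Nz z s/z²`;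
by EY, FY: `Yv = iz²yM + e`, `Wv - Yv = iz²vM + e'`, `|e|, |e'| ≤ C e^{-z/2}/rk s`, so
`-(2/3)y³·eA y s = tA z s + error`, `|error| ≤ z⁻³·z²·C(z³e^{-z/2}) rk^{-3/2}·rk^{-2}` (`Nz ≥ rk²`),
summable over `s` (`Summable pw`, B4, `rk^{-7/2} ≤ pw`), total `≤ C z^N e^{-z/2} → 0`. Same for `eB`
(`s ≠ 0`; the term `s = 0` is 0 on both sides: `Nn y 0 = 0`, `Nz z 0 = 0`). Summability of `tA`: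
`|tA| ≤ C z^5 rk^{-1}·rk^{-2}`. -/
def G_ASM : Prop := (∀ z : ℝ, 1 ≤ z → Summable (tA z) ∧ Summable (tB z)) ∧
  Tendsto (fun z : ℝ => PhiB ((z⁻¹:ℝ):ℂ) - (∑' s : ℤ × ℤ, tA z s + ∑' s : ℤ × ℤ, tB z s)) atTop
    (𝓝 0)

end EC237.ZE
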